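import Mathlib

/-!
# Toric Fano varieties, their volumes and toric beta invariants

Everything is over `ℂ`. A toric Fano variety of dimension `n` (normal projective, klt, with
`-K_X` an ample `ℚ`-Cartier divisor) is the toric variety `X_S` of the face fan of a Fano polytope
in `ℝⁿ`, that is, of a convex lattice polytope with the origin in its interior all of whose
vertices are primitive lattice vectors. We encode it by the finite set `S ⊆ ℤⁿ` of these vertices,
which is the set of primitive generators of the rays of the fan. Two such varieties are isomorphic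
exactly when the vertex sets differ by an element of `GL_n(ℤ)`.
-/

open MeasureTheory Set
open scoped BigOperators

namespace Pool.Agent.Lib.Helper90.ToricFano

variable {n : ℕ}

/-- The lattice vector `v ∈ ℤⁿ`, seen as a vector of `ℝⁿ`. -/
def toR (v : Fin n → ℤ) : Fin n → ℝ := fun i => (v i : ℝ)

/-- The pairing `⟨v, x⟩ = ∑ vᵢ xᵢ` of a lattice vector (a one-parameter subgroup) with a real
character `x ∈ ℝⁿ`. -/
def pair (v : Fin n → ℤ) (x : Fin n → ℝ) : ℝ := ∑ i, (v i : ℝ) * x i

/-- A lattice vector is primitive when the greatest common divisor of its coordinates is `1`. -/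
def IsPrimitive (v : Fin n → ℤ) : Prop := Finset.univ.gcd v = 1

/-- `S` is the vertex set of a Fano polytope: its elements are primitive, each of them is a vertex
of the convex hull of `S` (it does not lie in the convex hull of the others), and the origin is an
interior point of the convex hull. Equivalently, `S` is the set of primitive ray generators of the
fan of an `n`-dimensional toric Fano variety `X_S`. -/
structure IsFanoPolytope (S : Finset (Fin n → ℤ)) : Prop where
  primitive : ∀ v ∈ S, IsPrimitive v
  vertex : ∀ v ∈ S, toR v ∉ convexHull ℝ (toR '' ((S : Set (Fin n → ℤ)) \ {v}))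
  origin : (0 : Fin n → ℝ) ∈ interior (convexHull ℝ (toR '' (S : Set (Fin n → ℤ))))

/-- The anticanonical (moment) polytope `P_S = {x | ⟨v, x⟩ ≥ -1 for all v ∈ S}`: the sections of
`-m K_X` are spanned by the characters in `m P_S`. -/
def polytope (S : Finset (Fin n → ℤ)) : Set (Fin n → ℝ) := {x | ∀ v ∈ S, -1 ≤ pair v x}

/-- The volume `vol(X_S) = (-K_X)ⁿ = n! · vol(P_S)` of the toric Fano variety `X_S`. -/
noncomputable def degree (S : Finset (Fin n → ℤ)) : ℝ :=
  n.factorial * (volume (polytope S)).toReal

/-- The log discrepancy `A_X(E_w)` of the toric prime divisor `E_w` over `X_S` given by a primitive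
lattice vector `w`: the value at `w` of the function that equals `1` on every ray generator and is
linear on every cone of the fan, i.e. of the Minkowski functional of the Fano polytope. -/
noncomputable def logDiscrepancy (S : Finset (Fin n → ℤ)) (w : Fin n → ℤ) : ℝ :=
  gauge (convexHull ℝ (toR '' (S : Set (Fin n → ℤ)))) (toR w)

/-- `vol(-K_X - t E_w)`. The character `x ∈ m P_S`, as a section of `-m K_X`, vanishes along `E_w`
to order `⟨w, x⟩ + m A_X(E_w)`. -/
noncomputable def volSub (S : Finset (Fin n → ℤ)) (w : Fin n → ℤ) (t : ℝ) : ℝ :=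
  n.factorial * (volume {x ∈ polytope S | t ≤ pair w x + logDiscrepancy S w}).toReal

/-- The invariant `β(E_w) = A_X(E_w) - (∫₀^∞ vol(-K_X - t E_w) dt) / vol(-K_X)` of the toric prime
divisor `E_w` over `X_S`. -/
noncomputable def beta (S : Finset (Fin n → ℤ)) (w : Fin n → ℤ) : ℝ :=
  logDiscrepancy S w - (∫ t in Ioi (0 : ℝ), volSub S w t) / degree S

/-- K-semistability of `X_S`, tested on toric divisors only: `β(E_w) ≥ 0` for every toric prime
divisor `E_w` over `X_S`. It is implied by K-semistability, by the Fujita-Li criterion. -/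
def IsKSemistable (S : Finset (Fin n → ℤ)) : Prop :=
  ∀ w : Fin n → ℤ, IsPrimitive w → 0 ≤ beta S w

/-- `X_S` and `X_{S'}` are isomorphic: `S' = g S` for some `g ∈ GL_n(ℤ)`. -/
def Isomorphic (S S' : Finset (Fin n → ℤ)) : Prop :=
  ∃ g : Matrix (Fin n) (Fin n) ℤ, IsUnit g.det ∧ S' = S.image g.mulVec

/-- The Fano polytope of the projective space `ℙⁿ`: the vectors `e₁, …, eₙ` and
`-(e₁ + ⋯ + eₙ)`. -/
def projectiveSpace (n : ℕ) : Finset (Fin n → ℤ) :=
  Finset.univ.image (fun i : Fin n => (Pi.single i 1 : Fin n → ℤ)) ∪ {fun _ => -1}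

/-- The Fano polytope of `ℙ¹ × ℙⁿ⁻¹` (for `n ≥ 2`): the vectors `e₁, …, eₙ`, `-e₁` and
`-(e₂ + ⋯ + eₙ)`. -/
def lineTimesProjectiveSpace (n : ℕ) : Finset (Fin n → ℤ) :=
  Finset.univ.image (fun i : Fin n => (Pi.single i 1 : Fin n → ℤ)) ∪
    {(fun i => if (i : ℕ) = 0 then -1 else 0 : Fin n → ℤ),
      (fun i => if (i : ℕ) = 0 then 0 else -1 : Fin n → ℤ)}

/-- The set of the volumes `vol(X)` of all `n`-dimensional K-semistable toric Fano varieties `X`
that are not isomorphic to `ℙⁿ`. -/
def semistableVolumes (n : ℕ) : Set ℝ :=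
  {d | ∃ S : Finset (Fin n → ℤ), IsFanoPolytope S ∧ IsKSemistable S ∧
    ¬ Isomorphic (projectiveSpace n) S ∧ degree S = d}

end Pool.Agent.Lib.Helper90.ToricFano
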