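import Pool.Agent.Lib.Helper90.ToricFano

/-!
# Proofs for the toric volume gap
-/

open MeasureTheory Set
open scoped BigOperators ENNReal

namespace Pool.Agent.Lib.Helper90.ToricFano

/-! ## Simplices -/

section

variable {n : ℕ}


/-- The scaled simplex in `ι → ℝ`. -/
def simplex (ι : Type*) [Fintype ι] (c : ℝ) : Set (ι → ℝ) :=
  {y | (∀ i, 0 ≤ y i) ∧ ∑ i, y i ≤ c}

lemma measurableSet_simplex (ι : Type*) [Fintype ι] (c : ℝ) : MeasurableSet (simplex ι c) := by
  unfold simplex
  measurability

lemma lintegral_Icc_sub_pow (N : ℕ) (c : ℝ) (hc : 0 ≤ c) (a : ℝ) (ha : 0 ≤ a) :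
    ∫⁻ t in Icc 0 c, ENNReal.ofReal (a * (c - t) ^ N) =
      ENNReal.ofReal (a * c ^ (N + 1) / (N + 1)) := by
  rw [← ofReal_integral_eq_lintegral_ofReal]
  · congr 1
    rw [integral_Icc_eq_integral_Ioc, ← intervalIntegral.integral_of_le hc,
      intervalIntegral.integral_const_mul,
      intervalIntegral.integral_comp_sub_left (fun x => x ^ N) c, integral_pow]
    simp
    ring
  · exact (Continuous.continuousOn (by fun_prop)).integrableOn_compact isCompact_Icc
  · filter_upwards [ae_restrict_mem measurableSet_Icc] with t ht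
    have : 0 ≤ c - t := by linarith [ht.2]
    positivity

lemma lintegral_simplex_fin (m : ℕ) : ∀ (k : ℕ) (c : ℝ), 0 ≤ c →
    ∫⁻ y in simplex (Fin k) c, ENNReal.ofReal ((c - ∑ i, y i) ^ m) =
      ENNReal.ofReal (m.factorial * c ^ (k + m) / (k + m).factorial) := by
  intro k
  induction k with
  | zero =>
    intro c hc
    have hs : simplex (Fin 0) c = Set.univ := by
      ext y; simp [simplex, hc]
    rw [hs]
    simp
    have h1 : (m.factorial : ℝ) * c ^ m / m.factorial = c ^ m := by
      field_simp
    rw [h1]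
    have : (volume : Measure (Fin 0 → ℝ)) Set.univ = 1 := by
      simp [volume_pi]
    simp [this]
  | succ k ih =>
    intro c hc
    let e := MeasurableEquiv.piFinSuccAbove (fun _ : Fin (k + 1) => ℝ) 0
    have he : MeasurePreserving e volume volume :=
      volume_preserving_piFinSuccAbove (fun _ : Fin (k + 1) => ℝ) 0
    let T : Set (ℝ × (Fin k → ℝ)) := {p | (0 ≤ p.1 ∧ p.1 ≤ c) ∧ ((∀ i, 0 ≤ p.2 i) ∧ ∑ i, p.2 i ≤ c - p.1)}
    have hT : MeasurableSet T := by
      measurability
    have hpre : simplex (Fin (k + 1)) c = e ⁻¹' T := by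
      ext y
      simp only [simplex, mem_ofPred_eq, mem_preimage, T, e, MeasurableEquiv.piFinSuccAbove_apply,
        Fin.forall_fin_succ, Fin.sum_univ_succ]
      simp only [Fin.insertNthEquiv_symm_apply, Fin.removeNth, Fin.zero_succAbove]
      constructor
      · rintro ⟨⟨h0, h1⟩, h2⟩
        have : 0 ≤ ∑ i : Fin k, y i.succ := Finset.sum_nonneg (fun i _ => h1 i)
        refine ⟨⟨h0, by linarith⟩, h1, by linarith⟩
      · rintro ⟨⟨h0, h1⟩, h2, h3⟩
        exact ⟨⟨h0, h2⟩, by linarith⟩
    let g : ℝ × (Fin k → ℝ) → ℝ≥0∞ := fun p => ENNReal.ofReal ((c - p.1 - ∑ i, p.2 i) ^ m)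
    have hg : Measurable g := by
      dsimp only [g]
      fun_prop
    have h1 : ∫⁻ y in simplex (Fin (k + 1)) c, ENNReal.ofReal ((c - ∑ i, y i) ^ m)
        = ∫⁻ p in T, g p := by
      rw [hpre, ← he.setLIntegral_comp_preimage_emb e.measurableEmbedding g T]
      refine setLIntegral_congr_fun (e.measurable hT) ?_
      intro y _
      simp only [g, e, MeasurableEquiv.piFinSuccAbove_apply, Fin.sum_univ_succ,
        Fin.insertNthEquiv_symm_apply, Fin.removeNth, Fin.zero_succAbove]
      congr 2
      ring
    rw [h1, ← lintegral_indicator hT, Measure.volume_eq_prod,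
      lintegral_prod _ (hg.indicator hT).aemeasurable]
    have h2 : ∀ t : ℝ, ∫⁻ z, T.indicator g (t, z) = (Icc 0 c).indicator
        (fun t => ENNReal.ofReal ((m.factorial / (k + m).factorial) * (c - t) ^ (k + m))) t := by
      intro t
      by_cases ht : t ∈ Icc 0 c
      · rw [indicator_of_mem ht]
        have h3 : ∀ z, T.indicator g (t, z) = (simplex (Fin k) (c - t)).indicator
            (fun z => ENNReal.ofReal ((c - t - ∑ i, z i) ^ m)) z := by
          intro z
          by_cases hz : z ∈ simplex (Fin k) (c - t)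
          · rw [indicator_of_mem hz, indicator_of_mem]
            exact ⟨ht, hz⟩
          · rw [indicator_of_notMem hz, indicator_of_notMem]
            intro h
            exact hz h.2
        simp_rw [h3]
        rw [lintegral_indicator (measurableSet_simplex _ _), ih (c - t) (by linarith [ht.2])]
        congr 1
        ring
      · rw [indicator_of_notMem ht]
        have h3 : ∀ z, T.indicator g (t, z) = 0 := by
          intro z
          rw [indicator_of_notMem]
          intro h
          exact ht h.1
        simp [h3]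
    simp_rw [h2]
    rw [lintegral_indicator measurableSet_Icc, lintegral_Icc_sub_pow _ _ hc _ (by positivity)]
    congr 1
    have : k + 1 + m = (k + m) + 1 := by ring
    rw [this, Nat.factorial_succ]
    push_cast
    field_simp

lemma lintegral_simplex (m : ℕ) (ι : Type*) [Fintype ι] (c : ℝ) (hc : 0 ≤ c) :
    ∫⁻ y in simplex ι c, ENNReal.ofReal ((c - ∑ i, y i) ^ m) =
      ENNReal.ofReal (m.factorial * c ^ (Fintype.card ι + m) / (Fintype.card ι + m).factorial) := by
  rw [← lintegral_simplex_fin m (Fintype.card ι) c hc]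
  let f := (Fintype.equivFin ι).symm
  let e := MeasurableEquiv.piCongrLeft (fun _ : ι => ℝ) f
  have he : MeasurePreserving e volume volume :=
    volume_measurePreserving_piCongrLeft (fun _ : ι => ℝ) f
  have hval : ∀ (y : Fin (Fintype.card ι) → ℝ) (j : Fin (Fintype.card ι)), e y (f j) = y j := by
    intro y j
    simp only [e, MeasurableEquiv.coe_piCongrLeft]
    exact Equiv.piCongrLeft_apply_apply (fun _ : ι => ℝ) f y j
  have hsum : ∀ y : Fin (Fintype.card ι) → ℝ, ∑ i, e y i = ∑ j, y j := by
    intro y
    rw [← Equiv.sum_comp f]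
    simp_rw [hval]
  have hpre : simplex (Fin (Fintype.card ι)) c = e ⁻¹' (simplex ι c) := by
    ext y
    simp only [simplex, mem_ofPred_eq, mem_preimage, hsum]
    constructor
    · rintro ⟨h1, h2⟩
      refine ⟨fun i => ?_, h2⟩
      obtain ⟨j, rfl⟩ := f.surjective i
      rw [hval]
      exact h1 j
    · rintro ⟨h1, h2⟩
      refine ⟨fun j => ?_, h2⟩
      rw [← hval y j]
      exact h1 _
  rw [hpre, ← he.setLIntegral_comp_preimage_emb e.measurableEmbedding]
  simp_rw [hsum]


/-- two-block region -/
def block {ι : Type*} [Fintype ι] [DecidableEq ι] (A : Finset ι) (s t : ℝ) : Set (ι → ℝ) :=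
  {y | (∀ i, 0 ≤ y i) ∧ ∑ i ∈ A, y i ≤ s ∧ ∑ i ∈ Aᶜ, y i ≤ t}

lemma measurableSet_block {ι : Type*} [Fintype ι] [DecidableEq ι] (A : Finset ι) (s t : ℝ) :
    MeasurableSet (block A s t) := by
  unfold block
  measurability

lemma lintegral_block_aux {ι : Type*} [Fintype ι] [DecidableEq ι] (p : ι → Prop)
    [DecidablePred p] (A : Finset ι) (hA : ∀ i, i ∈ A ↔ p i) (s t : ℝ)
    (hs : 0 ≤ s) (ht : 0 ≤ t) (m : ℕ) :
    ∫⁻ y in block A s t, ENNReal.ofReal ((t - ∑ i ∈ Aᶜ, y i) ^ m) =
      ENNReal.ofReal (s ^ A.card / A.card.factorial *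
        (m.factorial * t ^ (Aᶜ.card + m) / (Aᶜ.card + m).factorial)) := by
  let e := MeasurableEquiv.piEquivPiSubtypeProd (fun _ : ι => ℝ) p
  have he : MeasurePreserving e volume volume :=
    volume_preserving_piEquivPiSubtypeProd (fun _ : ι => ℝ) p
  have h1 : ∀ y : ι → ℝ, ∑ i ∈ A, y i = ∑ i : {i // p i}, (e y).1 i := by
    intro y
    rw [Finset.sum_subtype A hA]
    rfl
  have h2 : ∀ y : ι → ℝ, ∑ i ∈ Aᶜ, y i = ∑ i : {i // ¬ p i}, (e y).2 i := by
    intro y
    have : ∀ i, i ∈ Aᶜ ↔ ¬ p i := fun i => by rw [Finset.mem_compl, hA]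
    rw [Finset.sum_subtype Aᶜ this]
    rfl
  have hpre : block A s t = e ⁻¹' ((simplex {i // p i} s) ×ˢ (simplex {i // ¬ p i} t)) := by
    ext y
    simp only [block, simplex, mem_ofPred_eq, mem_preimage, mem_prod, h1, h2]
    constructor
    · rintro ⟨h3, h4, h5⟩
      exact ⟨⟨fun i => h3 i, h4⟩, fun i => h3 i, h5⟩
    · rintro ⟨⟨h3, h4⟩, h5, h6⟩
      refine ⟨fun i => ?_, h4, h6⟩
      by_cases hi : p i
      · exact h3 ⟨i, hi⟩
      · exact h5 ⟨i, hi⟩
  rw [hpre]
  simp_rw [h2]
  rw [he.setLIntegral_comp_preimage_emb e.measurableEmbedding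
    (fun q : ({i // p i} → ℝ) × ({i // ¬ p i} → ℝ) => ENNReal.ofReal ((t - ∑ i, q.2 i) ^ m))]
  rw [Measure.volume_eq_prod, ← Measure.prod_restrict, lintegral_prod _ (by fun_prop)]
  have h3 := lintegral_simplex m {i // ¬ p i} t ht
  have h4 := lintegral_simplex 0 {i // p i} s hs
  simp only [pow_zero, ENNReal.ofReal_one, Nat.factorial_zero, add_zero, Nat.cast_one, one_mul,
    lintegral_const, one_mul] at h4
  simp_rw [h3]
  rw [lintegral_const, h4, ← ENNReal.ofReal_mul (by positivity), mul_comm]
  have c1 : Fintype.card {i // p i} = A.card := by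
    rw [Fintype.card_subtype]
    congr 1
    ext i
    simp [hA]
  have c2 : Fintype.card {i // ¬ p i} = Aᶜ.card := by
    rw [Fintype.card_subtype]
    congr 1
    ext i
    simp [hA]
  rw [c1, c2]

lemma lintegral_block {ι : Type*} [Fintype ι] [DecidableEq ι] (A : Finset ι) (s t : ℝ)
    (hs : 0 ≤ s) (ht : 0 ≤ t) (m : ℕ) :
    ∫⁻ y in block A s t, ENNReal.ofReal ((t - ∑ i ∈ Aᶜ, y i) ^ m) =
      ENNReal.ofReal (s ^ A.card / A.card.factorial *
        (m.factorial * t ^ (Aᶜ.card + m) / (Aᶜ.card + m).factorial)) :=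
  lintegral_block_aux (fun i => i ∈ A) A (fun _ => Iff.rfl) s t hs ht m

end

/-! ## The volume bound -/

section

variable {n : ℕ}


/-- `φ(k) = (k+1)^k / k!`. -/
noncomputable def phi (k : ℕ) : ℝ := ((k : ℝ) + 1) ^ k / k.factorial

lemma phi_pos (k : ℕ) : 0 < phi k := by unfold phi; positivity

lemma phi_eq (k : ℕ) : ((k : ℝ) + 1) ^ (k + 1) / (k + 1).factorial = phi k := by
  unfold phi
  rw [Nat.factorial_succ]
  push_cast
  field_simp
  ring

/-- the affine map -/
def aff {n : ℕ} (M : Matrix (Fin n) (Fin n) ℝ) (x : Fin n → ℝ) : Fin n → ℝ :=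
  fun i => M.mulVec x i + 1

lemma measurable_aff {n : ℕ} (M : Matrix (Fin n) (Fin n) ℝ) : Measurable (aff M) := by
  unfold aff
  have : Continuous (fun x => M.mulVec x) := (Matrix.mulVecLin M).continuous_of_finiteDimensional
  apply measurable_pi_lambda
  intro i
  have h2 : Continuous (fun x : Fin n → ℝ => M.mulVec x i + 1) :=
    ((continuous_apply i).comp this).add continuous_const
  exact h2.measurable

lemma continuous_aff {n : ℕ} (M : Matrix (Fin n) (Fin n) ℝ) : Continuous (aff M) := by
  unfold aff
  have : Continuous (fun x => M.mulVec x) := (Matrix.mulVecLin M).continuous_of_finiteDimensional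
  apply continuous_pi
  intro i
  exact ((continuous_apply i).comp this).add continuous_const

lemma map_aff {n : ℕ} (M : Matrix (Fin n) (Fin n) ℝ) (hM : M.det ≠ 0) :
    Measure.map (aff M) volume = ENNReal.ofReal |(M.det)⁻¹| • (volume : Measure (Fin n → ℝ)) := by
  have h1 : aff M = (fun y : Fin n → ℝ => y + 1) ∘ (Matrix.toLin' M) := by
    funext x
    funext i
    simp [aff]
  have h2 : Measurable (Matrix.toLin' M) :=
    (Matrix.toLin' M).continuous_of_finiteDimensional.measurable
  have h3 : Measurable (fun y : Fin n → ℝ => y + 1) := by fun_prop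
  rw [h1, ← Measure.map_map h3 h2,
    Real.map_matrix_volume_pi_eq_smul_volume_pi hM, Measure.map_smul]
  congr 1
  exact (measurePreserving_add_right volume (1 : Fin n → ℝ)).map_eq

section
variable {n : ℕ} (M : Matrix (Fin n) (Fin n) ℝ) (A : Finset (Fin n))

/-- the test function -/
noncomputable def fn (x : Fin n → ℝ) : ℝ := ((Aᶜ.card : ℝ) + 1) - ∑ i ∈ Aᶜ, aff M x i

lemma continuous_fn : Continuous (fn M A) := by
  unfold fn
  refine continuous_const.sub (continuous_finsetSum _ ?_)
  intro i _
  exact (continuous_apply i).comp (continuous_aff M)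

lemma lintegral_fn_block (hM : M.det ≠ 0) :
    ∫⁻ x in aff M ⁻¹' (block A (A.card + 1) (Aᶜ.card + 1)), ENNReal.ofReal (fn M A x) =
      ENNReal.ofReal (|M.det|⁻¹ * (phi A.card * phi Aᶜ.card)) := by
  have h1 := lintegral_block A ((A.card : ℝ) + 1) ((Aᶜ.card : ℝ) + 1) (by positivity)
    (by positivity) 1
  simp only [pow_one, Nat.factorial_one, Nat.cast_one, one_mul] at h1
  rw [phi_eq] at h1
  have h2 : ((A.card : ℝ) + 1) ^ A.card / A.card.factorial = phi A.card := rfl
  rw [h2] at h1
  rw [← lintegral_indicator (measurable_aff M (measurableSet_block _ _ _))]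
  have h3 : (fun x => (aff M ⁻¹' (block A (A.card + 1) (Aᶜ.card + 1))).indicator
      (fun x => ENNReal.ofReal (fn M A x)) x) = fun x =>
      (block A (A.card + 1) (Aᶜ.card + 1)).indicator
        (fun y => ENNReal.ofReal ((Aᶜ.card : ℝ) + 1 - ∑ i ∈ Aᶜ, y i)) (aff M x) := by
    funext x
    rfl
  rw [h3, ← lintegral_map (μ := volume) (f := (block A (A.card + 1) (Aᶜ.card + 1)).indicator
        (fun y => ENNReal.ofReal ((Aᶜ.card : ℝ) + 1 - ∑ i ∈ Aᶜ, y i))) (g := aff M)
      ?_ (measurable_aff M), map_aff M hM,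
    lintegral_smul_measure, lintegral_indicator (measurableSet_block _ _ _), h1, smul_eq_mul,
    ← ENNReal.ofReal_mul (by positivity), abs_inv]
  refine Measurable.indicator ?_ (measurableSet_block _ _ _)
  fun_prop

variable (P : Set (Fin n → ℝ))

lemma volume_block (hM : M.det ≠ 0) :
    volume (aff M ⁻¹' (block A (A.card + 1) (Aᶜ.card + 1))) =
      ENNReal.ofReal (|M.det|⁻¹ * (phi A.card * phi Aᶜ.card)) := by
  have h1 := lintegral_block A ((A.card : ℝ) + 1) ((Aᶜ.card : ℝ) + 1) (by positivity)
    (by positivity) 0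
  simp only [pow_zero, ENNReal.ofReal_one, Nat.factorial_zero, add_zero, Nat.cast_one, one_mul,
    lintegral_const, one_mul, Measure.restrict_apply MeasurableSet.univ, univ_inter] at h1
  have h2 := map_aff M hM
  have h3 : Measure.map (aff M) volume (block A (A.card + 1) (Aᶜ.card + 1)) =
    ENNReal.ofReal |(M.det)⁻¹| • volume (block A (A.card + 1) (Aᶜ.card + 1)) := by
    rw [h2]; rfl
  rw [Measure.map_apply (measurable_aff M) (measurableSet_block _ _ _)] at h3
  rw [h3, h1, smul_eq_mul, ← ENNReal.ofReal_mul (by positivity), abs_inv]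
  rfl

/-- Standing hypotheses. -/
structure Good : Prop where
  closed : IsClosed P
  bdd : Bornology.IsBounded P
  ge : ∀ x ∈ P, ∀ i, -1 ≤ M.mulVec x i
  le : ∀ x ∈ P, ∑ i ∈ A, M.mulVec x i ≤ 1
  bar : ∫ x in P, ∑ i ∈ Aᶜ, M.mulVec x i ≤ 0

variable {M A P}

lemma Good.measurable (h : Good M A P) : MeasurableSet P := h.closed.measurableSet

lemma Good.compact (h : Good M A P) : IsCompact P := Metric.isCompact_of_isClosed_isBounded h.closed h.bdd

lemma Good.fn_lt (h : Good M A P) {x : Fin n → ℝ} (hx : x ∈ P)
    (hx' : x ∉ aff M ⁻¹' (block A (A.card + 1) (Aᶜ.card + 1))) : fn M A x < 0 := by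
  by_contra hc
  push Not at hc
  apply hx'
  refine ⟨fun i => ?_, ?_, ?_⟩
  · have := h.ge x hx i
    simp only [aff]; linarith
  · have := h.le x hx
    simp only [aff, Finset.sum_add_distrib, Finset.sum_const, nsmul_eq_mul, mul_one]
    linarith
  · unfold fn at hc
    linarith

lemma fn_nonneg {x : Fin n → ℝ}
    (hx' : x ∈ aff M ⁻¹' (block A (A.card + 1) (Aᶜ.card + 1))) : 0 ≤ fn M A x := by
  have := hx'.2.2
  unfold fn
  linarith

lemma Good.integrable (h : Good M A P) {f : (Fin n → ℝ) → ℝ} (hf : Continuous f) :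
    IntegrableOn f P :=
  hf.continuousOn.integrableOn_compact h.compact

lemma Good.le_integral (h : Good M A P) : (volume P).toReal ≤ ∫ x in P, fn M A x := by
  have h1 : ∀ x, fn M A x = 1 - ∑ i ∈ Aᶜ, M.mulVec x i := by
    intro x
    simp only [fn, aff, Finset.sum_add_distrib, Finset.sum_const, nsmul_eq_mul, mul_one]
    ring
  simp_rw [h1]
  have hc : Continuous (fun x : Fin n → ℝ => M.mulVec x) :=
    (Matrix.mulVecLin M).continuous_of_finiteDimensional
  have hs : Continuous (fun x : Fin n → ℝ => ∑ i ∈ Aᶜ, M.mulVec x i) :=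
    continuous_finsetSum _ (fun i _ => (continuous_apply i).comp hc)
  rw [integral_sub (h.integrable continuous_const) (h.integrable hs)]
  have := h.bar
  simp only [integral_const, smul_eq_mul, mul_one, Measure.real, Measure.restrict_apply MeasurableSet.univ, univ_inter]
  linarith

lemma Good.lintegral_le (h : Good M A P) :
    ∫⁻ x in P, ENNReal.ofReal (fn M A x) ≤
      ∫⁻ x in aff M ⁻¹' (block A (A.card + 1) (Aᶜ.card + 1)), ENNReal.ofReal (fn M A x) := by
  rw [← lintegral_indicator h.measurable,
    ← lintegral_indicator (measurable_aff M (measurableSet_block _ _ _))]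
  apply lintegral_mono
  intro x
  by_cases hx : x ∈ P
  · by_cases hx' : x ∈ aff M ⁻¹' (block A (A.card + 1) (Aᶜ.card + 1))
    · rw [indicator_of_mem hx, indicator_of_mem hx']
    · rw [indicator_of_mem hx, indicator_of_notMem hx']
      have := h.fn_lt hx hx'
      simp [ENNReal.ofReal_eq_zero, this.le]
  · rw [indicator_of_notMem hx]
    exact zero_le

/-- main volume bound -/
lemma Good.vol_le (h : Good M A P) (hM : M.det ≠ 0) :
    |M.det| * (volume P).toReal ≤ phi A.card * phi Aᶜ.card := by
  have h1 := h.le_integral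
  have h2 : ∫ x in P, fn M A x ≤ (∫⁻ x in P, ENNReal.ofReal (fn M A x)).toReal := by
    rw [integral_eq_lintegral_pos_part_sub_lintegral_neg_part (h.integrable (continuous_fn M A))]
    have : 0 ≤ (∫⁻ x in P, ENNReal.ofReal (-fn M A x)).toReal := ENNReal.toReal_nonneg
    linarith
  have h3 := h.lintegral_le
  rw [lintegral_fn_block M A hM] at h3
  have h4 : (∫⁻ x in P, ENNReal.ofReal (fn M A x)).toReal ≤ |M.det|⁻¹ * (phi A.card * phi Aᶜ.card) := by
    have := ENNReal.toReal_mono ENNReal.ofReal_ne_top h3
    rwa [ENNReal.toReal_ofReal] at this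
    have := phi_pos A.card
    have := phi_pos Aᶜ.card
    positivity
  have h5 : 0 < |M.det| := abs_pos.mpr hM
  have h6 : (volume P).toReal ≤ |M.det|⁻¹ * (phi A.card * phi Aᶜ.card) := by linarith
  calc |M.det| * (volume P).toReal ≤ |M.det| * (|M.det|⁻¹ * (phi A.card * phi Aᶜ.card)) :=
        mul_le_mul_of_nonneg_left h6 h5.le
    _ = _ := by field_simp

lemma Good.eq_of_eq (h : Good M A P) (hM : M.det ≠ 0) (hconv : Convex ℝ P)
    (hint : (interior P).Nonempty)
    (heq : |M.det| * (volume P).toReal = phi A.card * phi Aᶜ.card) :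
    P = aff M ⁻¹' (block A (A.card + 1) (Aᶜ.card + 1)) := by
  set Q := aff M ⁻¹' (block A (A.card + 1) (Aᶜ.card + 1)) with hQ
  have hQclosed : IsClosed Q := by
    refine IsClosed.preimage (continuous_aff M) ?_
    have : block A ((A.card : ℝ) + 1) ((Aᶜ.card : ℝ) + 1) =
      (⋂ i, {y : Fin n → ℝ | 0 ≤ y i}) ∩ ({y | ∑ i ∈ A, y i ≤ (A.card : ℝ) + 1} ∩
        {y | ∑ i ∈ Aᶜ, y i ≤ (Aᶜ.card : ℝ) + 1}) := by
      ext y
      simp [block]
    rw [this]
    refine IsClosed.inter (isClosed_iInter fun i => ?_) (IsClosed.inter ?_ ?_)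
    · exact isClosed_le continuous_const (continuous_apply i)
    · exact isClosed_le (by fun_prop) continuous_const
    · exact isClosed_le (by fun_prop) continuous_const
  have h5 : 0 < |M.det| := abs_pos.mpr hM
  have hpp : 0 < phi A.card * phi Aᶜ.card := mul_pos (phi_pos _) (phi_pos _)
  have hvol : (volume P).toReal = |M.det|⁻¹ * (phi A.card * phi Aᶜ.card) := by
    rw [← heq]; field_simp
  have h1 := h.le_integral
  have h2 := integral_eq_lintegral_pos_part_sub_lintegral_neg_part (h.integrable (continuous_fn M A))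
  have h3 := h.lintegral_le
  rw [lintegral_fn_block M A hM] at h3
  have h4 : (∫⁻ x in P, ENNReal.ofReal (fn M A x)).toReal ≤ |M.det|⁻¹ * (phi A.card * phi Aᶜ.card) := by
    have := ENNReal.toReal_mono ENNReal.ofReal_ne_top h3
    rwa [ENNReal.toReal_ofReal] at this
    positivity
  have hneg_fin : ∫⁻ x in P, ENNReal.ofReal (-fn M A x) ≠ ∞ := by
    have := (h.integrable (continuous_fn M A)).neg
    exact (Integrable.lintegral_lt_top this).ne
  have hneg : (∫⁻ x in P, ENNReal.ofReal (-fn M A x)) = 0 := by
    have h6 : (∫⁻ x in P, ENNReal.ofReal (-fn M A x)).toReal = 0 := by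
      have : 0 ≤ (∫⁻ x in P, ENNReal.ofReal (-fn M A x)).toReal := ENNReal.toReal_nonneg
      linarith
    rcases (ENNReal.toReal_eq_zero_iff _).mp h6 with h7 | h7
    · exact h7
    · exact absurd h7 hneg_fin
  have hposfin : ∫⁻ x in P, ENNReal.ofReal (fn M A x) ≠ ∞ := by
    exact (Integrable.lintegral_lt_top (h.integrable (continuous_fn M A))).ne
  have hpos : (∫⁻ x in P, ENNReal.ofReal (fn M A x)) =
      ENNReal.ofReal (|M.det|⁻¹ * (phi A.card * phi Aᶜ.card)) := by
    have : (∫⁻ x in P, ENNReal.ofReal (fn M A x)).toReal = |M.det|⁻¹ * (phi A.card * phi Aᶜ.card) := by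
      have : 0 ≤ (∫⁻ x in P, ENNReal.ofReal (-fn M A x)).toReal := ENNReal.toReal_nonneg
      linarith
    rw [← this, ENNReal.ofReal_toReal hposfin]
  -- first inclusion
  have hPQ : interior P ⊆ Q := by
    intro p hp
    by_contra hpQ
    have hopen : IsOpen (interior P ∩ Qᶜ) := isOpen_interior.inter hQclosed.isOpen_compl
    have hmeas : 0 < volume (interior P ∩ Qᶜ) := hopen.measure_pos _ ⟨p, hp, hpQ⟩
    have hint0 : ∫⁻ x in interior P ∩ Qᶜ, ENNReal.ofReal (-fn M A x) = 0 := by
      have : ∫⁻ x in interior P ∩ Qᶜ, ENNReal.ofReal (-fn M A x) ≤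
          ∫⁻ x in P, ENNReal.ofReal (-fn M A x) :=
        lintegral_mono_set (fun x hx => interior_subset hx.1)
      rw [hneg] at this
      exact le_antisymm this zero_le
    have hmn : Measurable (fun x => ENNReal.ofReal (-fn M A x)) :=
      (continuous_fn M A).neg.measurable.ennreal_ofReal
    rw [lintegral_eq_zero_iff hmn] at hint0
    rw [Filter.EventuallyEq, ae_restrict_iff' hopen.measurableSet] at hint0
    have : volume (interior P ∩ Qᶜ) = 0 := by
      refine measure_mono_null ?_ hint0
      intro x hx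
      simp only [mem_compl_iff, mem_ofPred_eq, not_forall]
      refine ⟨hx, ?_⟩
      have := h.fn_lt (interior_subset hx.1) hx.2
      simp only [Pi.zero_apply, ENNReal.ofReal_eq_zero, not_le]
      linarith
    exact hmeas.ne' this
  have hsub1 : P ⊆ Q := by
    have h6 := hconv.closure_interior_eq_closure_of_nonempty_interior hint
    calc P ⊆ closure P := subset_closure
      _ = closure (interior P) := h6.symm
      _ ⊆ Q := closure_minimal hPQ hQclosed
  refine Subset.antisymm hsub1 ?_
  -- second inclusion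
  let Qo : Set (Fin n → ℝ) := {x | (∀ i, 0 < aff M x i) ∧ ∑ i ∈ A, aff M x i < A.card + 1 ∧
    ∑ i ∈ Aᶜ, aff M x i < Aᶜ.card + 1}
  have hca : ∀ i, Continuous (fun x => aff M x i) := fun i =>
    (continuous_apply i).comp (continuous_aff M)
  have hQo : IsOpen Qo := by
    have : Qo = (⋂ i, {x : Fin n → ℝ | 0 < aff M x i}) ∩ ({x | ∑ i ∈ A, aff M x i < A.card + 1} ∩
        {x | ∑ i ∈ Aᶜ, aff M x i < Aᶜ.card + 1}) := by
      ext y
      simp [Qo]
    rw [this]
    refine IsOpen.inter (isOpen_iInter_of_finite fun i => ?_) (IsOpen.inter ?_ ?_)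
    · exact isOpen_lt continuous_const (hca i)
    · exact isOpen_lt (continuous_finsetSum _ fun i _ => hca i) continuous_const
    · exact isOpen_lt (continuous_finsetSum _ fun i _ => hca i) continuous_const
  have hQoP : Qo ⊆ P := by
    intro q hq
    by_contra hqP
    have hopen : IsOpen (Qo ∩ Pᶜ) := hQo.inter h.closed.isOpen_compl
    have hmeas : 0 < volume (Qo ∩ Pᶜ) := hopen.measure_pos _ ⟨q, hq, hqP⟩
    have hdisj : Disjoint P (Qo ∩ Pᶜ) := by
      rw [Set.disjoint_left]
      intro x hx hx'
      exact hx'.2 hx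
    have hle : ∫⁻ x in P ∪ (Qo ∩ Pᶜ), ENNReal.ofReal (fn M A x) ≤
        ∫⁻ x in Q, ENNReal.ofReal (fn M A x) := by
      refine lintegral_mono_set ?_
      rintro x (hx | hx)
      · exact hsub1 hx
      · exact ⟨fun i => (hx.1.1 i).le, hx.1.2.1.le, hx.1.2.2.le⟩
    rw [lintegral_union hopen.measurableSet hdisj, lintegral_fn_block M A hM, hpos] at hle
    have hint0 : ∫⁻ x in Qo ∩ Pᶜ, ENNReal.ofReal (fn M A x) = 0 := by
      by_contra hne
      have : 0 < ∫⁻ x in Qo ∩ Pᶜ, ENNReal.ofReal (fn M A x) := pos_iff_ne_zero.mpr hne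
      have h7 := ENNReal.lt_add_right (ENNReal.ofReal_ne_top
        (r := |M.det|⁻¹ * (phi A.card * phi Aᶜ.card))) hne
      exact absurd hle (not_le.mpr h7)
    have hmn : Measurable (fun x => ENNReal.ofReal (fn M A x)) :=
      (continuous_fn M A).measurable.ennreal_ofReal
    rw [lintegral_eq_zero_iff hmn] at hint0
    rw [Filter.EventuallyEq, ae_restrict_iff' hopen.measurableSet] at hint0
    have : volume (Qo ∩ Pᶜ) = 0 := by
      refine measure_mono_null ?_ hint0
      intro x hx
      simp only [mem_compl_iff, mem_ofPred_eq, not_forall]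
      refine ⟨hx, ?_⟩
      have := hx.1.2.2
      simp only [Pi.zero_apply, ENNReal.ofReal_eq_zero, not_le, fn]
      linarith
    exact hmeas.ne' this
  -- Q is in the closure of Qo : move towards the origin
  intro q hq
  have h0 : ∀ i, aff M 0 i = 1 := by intro i; simp [aff]
  have hscale : ∀ t : ℝ, ∀ i, aff M (t • q) i = t * aff M q i + (1 - t) := by
    intro t i
    simp only [aff, Matrix.mulVec_smul, Pi.smul_apply, smul_eq_mul]
    ring
  have hmem : ∀ t : ℝ, 0 ≤ t → t < 1 → t • q ∈ P := by
    intro t ht0 ht1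
    apply hQoP
    refine ⟨fun i => ?_, ?_, ?_⟩
    · rw [hscale]
      have := hq.1 i
      nlinarith [mul_nonneg ht0 this]
    · simp_rw [hscale]
      rw [Finset.sum_add_distrib, ← Finset.mul_sum]
      have := hq.2.1
      simp only [Finset.sum_const, nsmul_eq_mul]
      nlinarith [mul_le_mul_of_nonneg_left this ht0]
    · simp_rw [hscale]
      rw [Finset.sum_add_distrib, ← Finset.mul_sum]
      have := hq.2.2
      simp only [Finset.sum_const, nsmul_eq_mul]
      nlinarith [mul_le_mul_of_nonneg_left this ht0]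
  have hlim : Filter.Tendsto (fun t : ℝ => t • q) (nhdsWithin 1 (Iio 1)) (nhds ((1 : ℝ) • q)) :=
    ((continuous_id.smul continuous_const).tendsto 1).mono_left nhdsWithin_le_nhds
  rw [one_smul] at hlim
  refine h.closed.mem_of_tendsto hlim ?_
  have : Ico (0 : ℝ) 1 ∈ nhdsWithin (1 : ℝ) (Iio 1) := Ico_mem_nhdsLT one_pos
  filter_upwards [this] with t ht
  exact hmem t ht.1 ht.2

end


end

/-! ## Arithmetic -/

section

variable {n : ℕ}


lemma phi_zero : phi 0 = 1 := by simp [phi]
lemma phi_one : phi 1 = 2 := by norm_num [phi]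

/-- ratio of consecutive values -/
noncomputable def rat (k : ℕ) : ℝ := (((k : ℝ) + 2) / (k + 1)) ^ (k + 1)

lemma phi_succ (k : ℕ) : phi (k + 1) = rat k * phi k := by
  unfold phi rat
  rw [Nat.factorial_succ]
  push_cast
  rw [div_pow]
  field_simp
  ring

lemma rat_lt_succ (k : ℕ) : rat k < rat (k + 1) := by
  unfold rat
  push_cast
  -- write m = k+1
  have hm : (0 : ℝ) < (k : ℝ) + 1 := by positivity
  have hm2 : (0 : ℝ) < (k : ℝ) + 2 := by positivity
  have hm3 : (0 : ℝ) < (k : ℝ) + 3 := by positivity
  set m : ℝ := (k : ℝ) + 1 with hmdef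
  have e2 : (k : ℝ) + 2 = m + 1 := by rw [hmdef]; ring
  have e3 : (k : ℝ) + 1 + 2 = m + 2 := by rw [hmdef]
  have e4 : (k : ℝ) + 1 + 1 = m + 1 := by rw [hmdef]
  rw [e2]
  -- Bernoulli : (1 - 1/(m+1)^2)^(k+1) ≥ 1 - m/(m+1)^2
  have hb : 1 + ((k + 1 : ℕ) : ℝ) * (-(1 / (m + 1) ^ 2)) ≤ (1 + -(1 / (m + 1) ^ 2)) ^ (k + 1) := by
    apply one_add_mul_le_pow
    have : 1 / (m + 1) ^ 2 ≤ 1 := by
      rw [div_le_one (by positivity)]
      nlinarith
    linarith
  have hcast : ((k + 1 : ℕ) : ℝ) = m := by push_cast; rfl
  rw [hcast] at hb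
  have hprod : (1 + -(1 / (m + 1) ^ 2)) = ((m + 2) / (m + 1)) * (m / (m + 1)) := by
    field_simp
    ring
  rw [hprod, mul_pow] at hb
  have hpos1 : 0 < ((m + 1) / m) ^ (k + 1) := by positivity
  have hinv : (m / (m + 1)) ^ (k + 1) * ((m + 1) / m) ^ (k + 1) = 1 := by
    rw [← mul_pow]
    have : m / (m + 1) * ((m + 1) / m) = 1 := by field_simp
    rw [this, one_pow]
  rw [show (m + 2) / (m + 1) = (m + 2) / (m + 1) from rfl]
  have hstep : (1 + m * (-(1 / (m + 1) ^ 2))) * ((m + 2) / (m + 1)) * ((m + 1) / m) ^ (k + 1) ≤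
      ((m + 2) / (m + 1)) ^ (k + 1 + 1) := by
    calc (1 + m * (-(1 / (m + 1) ^ 2))) * ((m + 2) / (m + 1)) * ((m + 1) / m) ^ (k + 1)
        ≤ (((m + 2) / (m + 1)) ^ (k + 1) * (m / (m + 1)) ^ (k + 1)) * ((m + 2) / (m + 1)) *
            ((m + 1) / m) ^ (k + 1) := by
          have h1 : 0 ≤ (m + 2) / (m + 1) := by positivity
          gcongr
      _ = ((m + 2) / (m + 1)) ^ (k + 1 + 1) *
            ((m / (m + 1)) ^ (k + 1) * ((m + 1) / m) ^ (k + 1)) := by ring
      _ = _ := by rw [hinv, mul_one]
  have hgt : 1 < (1 + m * (-(1 / (m + 1) ^ 2))) * ((m + 2) / (m + 1)) := by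
    have : (1 + m * (-(1 / (m + 1) ^ 2))) * ((m + 2) / (m + 1)) = 1 + 1 / (m + 1) ^ 3 := by
      field_simp
      ring
    rw [this]
    have : 0 < 1 / (m + 1) ^ 3 := by positivity
    linarith
  calc ((m + 1) / m) ^ (k + 1) = 1 * ((m + 1) / m) ^ (k + 1) := by ring
    _ < (1 + m * (-(1 / (m + 1) ^ 2))) * ((m + 2) / (m + 1)) * ((m + 1) / m) ^ (k + 1) := by
        gcongr
    _ ≤ _ := by
        convert! hstep using 2

lemma rat_strictMono : StrictMono rat := strictMono_nat_of_lt_succ rat_lt_succ

lemma rat_pos (k : ℕ) : 0 < rat k := by unfold rat; positivity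

/-- moving weight to the larger block increases the product -/
lemma phi_mul_lt (a b : ℕ) (h : a < b) : phi (a + 1) * phi b < phi a * phi (b + 1) := by
  rw [phi_succ, phi_succ]
  have h1 := rat_strictMono h
  have h2 := phi_pos a
  have h3 := phi_pos b
  have : rat a * (phi a * phi b) < rat b * (phi a * phi b) := by gcongr
  calc rat a * phi a * phi b = rat a * (phi a * phi b) := by ring
    _ < rat b * (phi a * phi b) := this
    _ = _ := by ring

lemma phi_mul_le_aux (a : ℕ) : ∀ b, a + 1 ≤ b → phi (a + 1) * phi b ≤ phi 1 * phi (a + b) ∧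
    (phi (a + 1) * phi b = phi 1 * phi (a + b) → a = 0) := by
  induction a with
  | zero => intro b _; simp
  | succ a ih =>
    intro b hb
    have h1 := phi_mul_lt (a + 1) b (by omega)
    have h2 := (ih (b + 1) (by omega)).1
    have h3 : a + (b + 1) = a + 1 + b := by ring
    rw [h3] at h2
    have h4 : phi (a + 1 + 1) * phi b < phi 1 * phi (a + 1 + b) := lt_of_lt_of_le h1 h2
    exact ⟨h4.le, fun h => absurd h h4.ne⟩

/-- the extremal product -/
lemma phi_mul_le {a b : ℕ} (ha : 1 ≤ a) (hb : 1 ≤ b) :
    phi a * phi b ≤ phi 1 * phi (a + b - 1) ∧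
      (phi a * phi b = phi 1 * phi (a + b - 1) → a = 1 ∨ b = 1) := by
  rcases le_total a b with h | h
  · obtain ⟨a, rfl⟩ : ∃ a', a = a' + 1 := ⟨a - 1, by omega⟩
    have h1 := phi_mul_le_aux a b h
    have h2 : a + 1 + b - 1 = a + b := by omega
    rw [h2]
    exact ⟨h1.1, fun h3 => Or.inl (by have := h1.2 h3; omega)⟩
  · obtain ⟨b, rfl⟩ : ∃ b', b = b' + 1 := ⟨b - 1, by omega⟩
    have h1 := phi_mul_le_aux b a h
    have h2 : a + (b + 1) - 1 = b + a := by omega
    rw [h2, mul_comm (phi a)]
    exact ⟨h1.1, fun h3 => Or.inr (by have := h1.2 h3; omega)⟩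

lemma factorial_mul_phi {n : ℕ} (hn : 1 ≤ n) : (n.factorial : ℝ) * (phi 1 * phi (n - 1)) = 2 * (n : ℝ) ^ n := by
  obtain ⟨m, rfl⟩ : ∃ m, n = m + 1 := ⟨n - 1, by omega⟩
  rw [phi_one, Nat.add_sub_cancel, Nat.factorial_succ]
  unfold phi
  push_cast
  field_simp
  ring

/-- `(n+1)^n / 2 < 2 n^n` -/
lemma factorial_mul_phi_half_lt {n : ℕ} (hn : 1 ≤ n) :
    (n.factorial : ℝ) * (phi n / 2) < 2 * (n : ℝ) ^ n := by
  have hn0 : (0 : ℝ) < n := by exact_mod_cast hn
  have h1 : (n.factorial : ℝ) * (phi n / 2) = ((n : ℝ) + 1) ^ n / 2 := by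
    unfold phi
    field_simp
  rw [h1]
  have h2 : ((n : ℝ) + 1) ^ n ≤ Real.exp 1 * (n : ℝ) ^ n := by
    have h3 : (n : ℝ) + 1 = n * (1 + 1 / n) := by field_simp
    have h4 : (1 + 1 / (n : ℝ)) ≤ Real.exp (1 / n) := by
      have := Real.add_one_le_exp (1 / (n : ℝ))
      linarith
    have h5 : (1 + 1 / (n : ℝ)) ^ n ≤ Real.exp 1 := by
      calc (1 + 1 / (n : ℝ)) ^ n ≤ (Real.exp (1 / n)) ^ n := by gcongr
        _ = Real.exp 1 := by
            rw [← Real.exp_nat_mul]
            congr 1
            field_simp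
    rw [h3, mul_pow, mul_comm]
    gcongr
  have h6 := Real.exp_one_lt_d9
  have h7 : (0 : ℝ) < (n : ℝ) ^ n := by positivity
  nlinarith


end

/-! ## Basic facts on toric Fano varieties -/

section

variable {n : ℕ}
/-! ### basic facts -/

lemma pair_zero (v : Fin n → ℤ) : pair v 0 = 0 := by simp [pair]

lemma continuous_pair (v : Fin n → ℤ) : Continuous (pair v) := by
  unfold pair; fun_prop

lemma pair_add_right (v : Fin n → ℤ) (x y : Fin n → ℝ) : pair v (x + y) = pair v x + pair v y := by
  simp [pair, mul_add, Finset.sum_add_distrib]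

lemma pair_smul_right (v : Fin n → ℤ) (c : ℝ) (x : Fin n → ℝ) : pair v (c • x) = c * pair v x := by
  simp only [pair, Pi.smul_apply, smul_eq_mul, Finset.mul_sum]
  exact Finset.sum_congr rfl fun i _ => by ring

/-- the pairing as a linear form in the first real variable -/
noncomputable def lin (x : Fin n → ℝ) : (Fin n → ℝ) →ₗ[ℝ] ℝ where
  toFun u := ∑ i, u i * x i
  map_add' u v := by simp [add_mul, Finset.sum_add_distrib]
  map_smul' c u := by simp [Finset.mul_sum, mul_assoc]

lemma lin_toR (x : Fin n → ℝ) (v : Fin n → ℤ) : lin x (toR v) = pair v x := rfl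

lemma lin_ge_of_mem_convexHull {T : Set (Fin n → ℤ)} {x : Fin n → ℝ} {c : ℝ}
    (h : ∀ v ∈ T, c ≤ pair v x) {u : Fin n → ℝ} (hu : u ∈ convexHull ℝ (toR '' T)) :
    c ≤ lin x u := by
  have hconv : Convex ℝ {u : Fin n → ℝ | c ≤ lin x u} :=
    convex_halfSpace_ge (lin x).isLinear c
  have hsub : toR '' T ⊆ {u : Fin n → ℝ | c ≤ lin x u} := by
    rintro _ ⟨v, hv, rfl⟩
    exact h v hv
  exact convexHull_min hsub hconv hu

lemma lin_gt_of_mem_convexHull {T : Set (Fin n → ℤ)} {x : Fin n → ℝ} {c : ℝ}
    (h : ∀ v ∈ T, c < pair v x) {u : Fin n → ℝ} (hu : u ∈ convexHull ℝ (toR '' T)) :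
    c < lin x u := by
  have hconv : Convex ℝ {u : Fin n → ℝ | c < lin x u} :=
    convex_halfSpace_gt (lin x).isLinear c
  have hsub : toR '' T ⊆ {u : Fin n → ℝ | c < lin x u} := by
    rintro _ ⟨v, hv, rfl⟩
    exact h v hv
  exact convexHull_min hsub hconv hu

lemma isClosed_polytope (S : Finset (Fin n → ℤ)) : IsClosed (polytope S) := by
  have : polytope S = ⋂ v ∈ S, {x : Fin n → ℝ | -1 ≤ pair v x} := by
    ext x; simp [polytope]
  rw [this]
  exact isClosed_biInter fun v _ => isClosed_le continuous_const (continuous_pair v)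

lemma convex_polytope (S : Finset (Fin n → ℤ)) : Convex ℝ (polytope S) := by
  intro x hx y hy a b ha hb hab v hv
  rw [pair_add_right, pair_smul_right, pair_smul_right]
  have h1 := hx v hv
  have h2 := hy v hv
  nlinarith [mul_le_mul_of_nonneg_left h1 ha, mul_le_mul_of_nonneg_left h2 hb]

lemma zero_mem_interior_polytope (S : Finset (Fin n → ℤ)) : (0 : Fin n → ℝ) ∈ interior (polytope S) := by
  rw [mem_interior]
  refine ⟨⋂ v ∈ S, {x : Fin n → ℝ | -1 < pair v x}, ?_, ?_, ?_⟩
  · intro x hx v hv
    simp only [mem_iInter, mem_ofPred_eq] at hx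
    exact (hx v hv).le
  · exact isOpen_biInter_finset fun v _ => isOpen_lt continuous_const (continuous_pair v)
  · simp [pair_zero]

lemma isBounded_polytope {S : Finset (Fin n → ℤ)} (hS : IsFanoPolytope S) :
    Bornology.IsBounded (polytope S) := by
  have h0 := hS.origin
  rw [mem_interior_iff_mem_nhds, Metric.mem_nhds_iff] at h0
  obtain ⟨r, hr, hball⟩ := h0
  rw [isBounded_iff_forall_norm_le]
  refine ⟨2 / r, fun x hx => ?_⟩
  rw [pi_norm_le_iff_of_nonneg (by positivity)]
  intro i
  have key : ∀ s : ℝ, |s| < r → -1 ≤ s * x i := by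
    intro s hs
    have hu : (Pi.single i s : Fin n → ℝ) ∈ convexHull ℝ (toR '' (S : Set (Fin n → ℤ))) := by
      apply hball
      rw [mem_ball_zero_iff, Pi.norm_single]
      exact hs
    have := lin_ge_of_mem_convexHull (T := (S : Set (Fin n → ℤ))) (x := x) (c := -1)
      (fun v hv => hx v hv) hu
    have h2 : lin x (Pi.single i s) = s * x i := by
      simp only [lin, LinearMap.coe_mk, AddHom.coe_mk]
      rw [Finset.sum_eq_single i]
      · simp
      · intro j _ hj
        simp [Pi.single_eq_of_ne hj]
      · simp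
    rwa [h2] at this
  have h1 := key (r / 2) (by rw [abs_of_pos (by positivity)]; linarith)
  have h2 := key (-(r / 2)) (by rw [abs_neg, abs_of_pos (by positivity)]; linarith)
  rw [Real.norm_eq_abs, abs_le, ← neg_div, div_le_iff₀ hr, le_div_iff₀ hr]
  constructor <;> nlinarith

lemma isCompact_polytope {S : Finset (Fin n → ℤ)} (hS : IsFanoPolytope S) :
    IsCompact (polytope S) :=
  Metric.isCompact_of_isClosed_isBounded (isClosed_polytope S) (isBounded_polytope hS)

lemma volume_polytope_pos (S : Finset (Fin n → ℤ)) : 0 < volume (polytope S) := by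
  have h : 0 < volume (interior (polytope S)) :=
    isOpen_interior.measure_pos _ ⟨0, zero_mem_interior_polytope S⟩
  exact lt_of_lt_of_le h (measure_mono interior_subset)

lemma volume_polytope_toReal_pos {S : Finset (Fin n → ℤ)} (hS : IsFanoPolytope S) :
    0 < (volume (polytope S)).toReal :=
  ENNReal.toReal_pos (volume_polytope_pos S).ne' (isCompact_polytope hS).measure_lt_top.ne

lemma pair_add_logDiscrepancy_nonneg {S : Finset (Fin n → ℤ)} (hS : IsFanoPolytope S)
    (w : Fin n → ℤ) {x : Fin n → ℝ} (hx : x ∈ polytope S) :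
    0 ≤ pair w x + logDiscrepancy S w := by
  have h0 := hS.origin
  rw [mem_interior_iff_mem_nhds] at h0
  have habs : Absorbent ℝ (convexHull ℝ (toR '' (S : Set (Fin n → ℤ)))) := absorbent_nhds_zero h0
  by_contra hcon
  push Not at hcon
  have h1 : gauge (convexHull ℝ (toR '' (S : Set (Fin n → ℤ)))) (toR w) < - pair w x := by
    have : logDiscrepancy S w = gauge (convexHull ℝ (toR '' (S : Set (Fin n → ℤ)))) (toR w) := rfl
    linarith
  obtain ⟨b, hb0, hb1, hb2⟩ := exists_lt_of_gauge_lt habs h1
  obtain ⟨u, hu, hub⟩ := hb2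
  have h2 := lin_ge_of_mem_convexHull (T := (S : Set (Fin n → ℤ))) (x := x) (c := -1)
      (fun v hv => hx v hv) hu
  have h3 : pair w x = b * lin x u := by
    rw [← lin_toR, ← hub]
    simp
  nlinarith

lemma beta_eq {S : Finset (Fin n → ℤ)} (hS : IsFanoPolytope S) (w : Fin n → ℤ) :
    beta S w = -(∫ x in polytope S, pair w x) / (volume (polytope S)).toReal := by
  have hc := isCompact_polytope hS
  have hpos := volume_polytope_toReal_pos hS
  have hint : IntegrableOn (fun x => pair w x + logDiscrepancy S w) (polytope S) :=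
    ((continuous_pair w).add continuous_const).continuousOn.integrableOn_compact hc
  have hint1 : IntegrableOn (fun x => pair w x) (polytope S) :=
    (continuous_pair w).continuousOn.integrableOn_compact hc
  have hnn : 0 ≤ᵐ[volume.restrict (polytope S)] (fun x => pair w x + logDiscrepancy S w) := by
    filter_upwards [ae_restrict_mem (isClosed_polytope S).measurableSet] with x hx
    exact pair_add_logDiscrepancy_nonneg hS w hx
  have h1 := Integrable.integral_eq_integral_meas_le hint hnn
  have h2 : ∀ t : ℝ, volSub S w t = n.factorial *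
      (volume.restrict (polytope S)).real {x | t ≤ pair w x + logDiscrepancy S w} := by
    intro t
    unfold volSub
    rw [Measure.real, Measure.restrict_apply' (isClosed_polytope S).measurableSet]
    congr 3
    ext x
    simp [and_comm]
  have h3 : ∫ t in Ioi (0 : ℝ), volSub S w t = n.factorial *
      ∫ x in polytope S, (pair w x + logDiscrepancy S w) := by
    simp_rw [h2]
    rw [integral_const_mul, h1]
  have h4 : ∫ x in polytope S, (pair w x + logDiscrepancy S w) =
      (∫ x in polytope S, pair w x) + logDiscrepancy S w * (volume (polytope S)).toReal := by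
    rw [integral_add hint1 (integrable_const_iff.mpr (Or.inr ?_))]
    · simp [Measure.real, mul_comm]
    · rw [isFiniteMeasure_restrict]
      exact hc.measure_lt_top.ne
  unfold beta degree
  rw [h3, h4]
  have hf : (n.factorial : ℝ) ≠ 0 := by positivity
  field_simp
  ring

lemma pair_zsmul_left (k : ℤ) (w : Fin n → ℤ) (x : Fin n → ℝ) : pair (k • w) x = k * pair w x := by
  simp only [pair, Pi.smul_apply, smul_eq_mul, Int.cast_mul, Finset.mul_sum]
  exact Finset.sum_congr rfl fun i _ => by ring

lemma pair_add_left (v w : Fin n → ℤ) (x : Fin n → ℝ) : pair (v + w) x = pair v x + pair w x := by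
  simp [pair, add_mul, Finset.sum_add_distrib]

lemma pair_sum_left {ι : Type*} (s : Finset ι) (v : ι → Fin n → ℤ) (x : Fin n → ℝ) :
    pair (∑ i ∈ s, v i) x = ∑ i ∈ s, pair (v i) x := by
  classical
  induction s using Finset.induction_on with
  | empty => simp [pair]
  | insert a s ha ih => rw [Finset.sum_insert ha, Finset.sum_insert ha, pair_add_left, ih]

lemma integral_pair_nonpos {S : Finset (Fin n → ℤ)} (hS : IsFanoPolytope S)
    (hK : IsKSemistable S) (w : Fin n → ℤ) : ∫ x in polytope S, pair w x ≤ 0 := by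
  have hpos := volume_polytope_toReal_pos hS
  rcases Nat.eq_zero_or_pos n with hn | hn
  · subst hn
    have : ∀ x : Fin 0 → ℝ, pair w x = 0 := by intro x; simp [pair]
    simp [this]
  have : NeZero n := ⟨hn.ne'⟩
  obtain ⟨g, hg, hg1⟩ := Finset.extract_gcd (s := (Finset.univ : Finset (Fin n))) w
    ⟨0, Finset.mem_univ _⟩
  have hw : w = (Finset.univ.gcd w) • g := by
    funext i
    simpa using hg i (Finset.mem_univ _)
  have hb := hK g hg1
  rw [beta_eq hS, neg_div, Left.nonneg_neg_iff] at hb
  have h1 : ∫ x in polytope S, pair g x ≤ 0 := by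
    by_contra hcon
    push Not at hcon
    have := div_pos hcon hpos
    linarith
  have hgn : (0 : ℤ) ≤ Finset.univ.gcd w := by
    have := Finset.normalize_gcd (s := (Finset.univ : Finset (Fin n))) (f := w)
    rw [← this, Int.normalize_of_nonneg]
    all_goals
      rcases le_total 0 (Finset.univ.gcd w) with h | h
      · exact h
      · rw [← this, Int.normalize_of_nonpos h]; omega
  rw [hw]
  simp_rw [pair_zsmul_left]
  rw [integral_const_mul]
  have : (0 : ℝ) ≤ ((Finset.univ.gcd w : ℤ) : ℝ) := by exact_mod_cast hgn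
  exact mul_nonpos_of_nonneg_of_nonpos this h1


end

/-! ## Combinatorics -/

section

variable {n : ℕ}



/-- all maximal minors are `0, ±1` -/
def Unimod (S : Finset (Fin n → ℤ)) : Prop :=
  ∀ v : Fin n → (Fin n → ℤ), (∀ i, v i ∈ S) → |(Matrix.of v).det| ≤ 1

/-- real matrix with rows `v i` -/
def rmat (v : Fin n → (Fin n → ℤ)) : Matrix (Fin n) (Fin n) ℝ := Matrix.of (fun i => toR (v i))

lemma det_rmat (v : Fin n → (Fin n → ℤ)) : (rmat v).det = ((Matrix.of v).det : ℤ) := by
  rw [Int.cast_det]
  rfl

lemma rmat_mulVec (v : Fin n → (Fin n → ℤ)) (x : Fin n → ℝ) (i : Fin n) :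
    (rmat v).mulVec x i = pair (v i) x := rfl

lemma toR_injective : Function.Injective (toR : (Fin n → ℤ) → (Fin n → ℝ)) := by
  intro v w h
  funext i
  have := congrFun h i
  simpa [toR] using this

lemma toR_add (v w : Fin n → ℤ) : toR (v + w) = toR v + toR w := by
  funext i; simp [toR]

lemma toR_neg (v : Fin n → ℤ) : toR (-v) = - toR v := by
  funext i; simp [toR]

lemma toR_zero : toR (0 : Fin n → ℤ) = 0 := by
  funext i; simp [toR]

lemma toR_sum {ι : Type*} (s : Finset ι) (v : ι → Fin n → ℤ) :
    toR (∑ i ∈ s, v i) = ∑ i ∈ s, toR (v i) := by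
  classical
  induction s using Finset.induction_on with
  | empty => simp [toR_zero]
  | insert a s ha ih => rw [Finset.sum_insert ha, Finset.sum_insert ha, toR_add, ih]

lemma coord {S : Finset (Fin n → ℤ)} (hU : Unimod S) {v : Fin n → (Fin n → ℤ)}
    (hv : ∀ i, v i ∈ S) (hdet : (rmat v).det ≠ 0) {w : Fin n → ℤ} (hw : w ∈ S) {x : Fin n → ℝ}
    (hx : toR w = ∑ i, x i • toR (v i)) (i : Fin n) : x i = 0 ∨ x i = 1 ∨ x i = -1 := by
  have h1 : (rmat (Function.update v i w)).det = x i * (rmat v).det := by
    have h2 := Matrix.det_updateRow_sum (rmat v) i x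
    have h3 : ∑ k, x k • rmat v k = toR w := by
      rw [hx]; rfl
    rw [h3] at h2
    rw [← smul_eq_mul, ← h2]
    congr 1
    ext j k
    simp only [rmat, Matrix.of_apply, Matrix.updateRow_apply, Function.update_apply]
    split_ifs <;> rfl
  rw [det_rmat, det_rmat] at h1
  rw [det_rmat] at hdet
  have h4 := hU v hv
  have h5 := hU (Function.update v i w) (by
    intro j
    by_cases hj : j = i
    · subst hj; simpa using hw
    · rw [Function.update_of_ne hj]; exact hv j)
  have h6 : (Matrix.of v).det ≠ 0 := by exact_mod_cast hdet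
  rw [abs_le] at h4 h5
  have h7 : (Matrix.of v).det = 1 ∨ (Matrix.of v).det = -1 := by omega
  have h8 : (Matrix.of (Function.update v i w)).det = 0 ∨
      (Matrix.of (Function.update v i w)).det = 1 ∨
      (Matrix.of (Function.update v i w)).det = -1 := by omega
  rcases h7 with h7 | h7 <;> rcases h8 with h8 | h8 | h8 <;> rw [h7, h8] at h1 <;> push_cast at h1
  · left; linarith
  · right; left; linarith
  · right; right; linarith
  · left; linarith
  · right; right; linarith
  · right; left; linarith

/-- positive relation -/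
structure PosRel (S C : Finset (Fin n → ℤ)) (c : (Fin n → ℤ) → ℝ) : Prop where
  sub : C ⊆ S
  ne : C.Nonempty
  pos : ∀ v ∈ C, 0 < c v
  sum : ∑ v ∈ C, c v • toR v = 0

lemma exists_posRel {S : Finset (Fin n → ℤ)} (hS : IsFanoPolytope S) :
    ∃ C c, PosRel S C c := by
  classical
  have h0 := interior_subset hS.origin
  have himg : toR '' (S : Set (Fin n → ℤ)) = ((S.image toR : Finset (Fin n → ℝ)) : Set (Fin n → ℝ)) := by
    simp
  rw [himg, Finset.mem_convexHull'] at h0
  obtain ⟨w, hw0, hw1, hw2⟩ := h0
  rw [Finset.sum_image (fun a _ b _ h => toR_injective h)] at hw1 hw2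
  refine ⟨S.filter (fun v => 0 < w (toR v)), fun v => w (toR v), ?_, ?_, ?_, ?_⟩
  · exact Finset.filter_subset _ _
  · by_contra hne
    rw [Finset.not_nonempty_iff_eq_empty, Finset.filter_eq_empty_iff] at hne
    have : ∑ v ∈ S, w (toR v) = 0 := by
      apply Finset.sum_eq_zero
      intro v hv
      have h1 := hne hv
      have h2 := hw0 (toR v) (Finset.mem_image_of_mem _ hv)
      linarith
    linarith
  · intro v hv
    exact (Finset.mem_filter.mp hv).2
  · rw [← hw2, Finset.sum_filter_of_ne]
    intro v hv hne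
    have h2 := hw0 (toR v) (Finset.mem_image_of_mem _ hv)
    rcases h2.lt_or_eq with h | h
    · exact h
    · exfalso; apply hne; rw [← h]; simp

lemma exists_min_posRel {S : Finset (Fin n → ℤ)} (hS : IsFanoPolytope S) :
    ∃ C c, PosRel S C c ∧ ∀ C' c', PosRel S C' c' → C.card ≤ C'.card := by
  classical
  have hex : ∃ k, ∃ C c, PosRel S C c ∧ C.card = k := by
    obtain ⟨C, c, h⟩ := exists_posRel hS
    exact ⟨C.card, C, c, h, rfl⟩
  obtain ⟨C, c, h, hk⟩ := Nat.find_spec hex
  refine ⟨C, c, h, fun C' c' h' => ?_⟩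
  rw [hk]
  exact Nat.find_min' hex ⟨C', c', h', rfl⟩

lemma linInd_of_min {S C : Finset (Fin n → ℤ)} {c : (Fin n → ℤ) → ℝ} (h : PosRel S C c)
    (hmin : ∀ C' c', PosRel S C' c' → C.card ≤ C'.card) {v0 : Fin n → ℤ} (hv0 : v0 ∈ C) :
    LinearIndepOn ℝ (toR : (Fin n → ℤ) → (Fin n → ℝ)) (C.erase v0 : Finset (Fin n → ℤ)) := by
  classical
  -- key claim
  have key : ∀ d : (Fin n → ℤ) → ℝ, d v0 = 0 → ∑ v ∈ C, d v • toR v = 0 →
      ∀ v ∈ C, ¬ (0 < d v) := by
    intro d hd0 hdsum v1 hv1 hdpos
    obtain ⟨v2, hv2, hv2min⟩ := Finset.exists_min_image (C.filter (fun v => 0 < d v))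
      (fun v => c v / d v) ⟨v1, Finset.mem_filter.mpr ⟨hv1, hdpos⟩⟩
    rw [Finset.mem_filter] at hv2
    set t := c v2 / d v2 with ht
    have htpos : 0 < t := div_pos (h.pos v2 hv2.1) hv2.2
    let c' : (Fin n → ℤ) → ℝ := fun v => c v - t * d v
    have hc'nn : ∀ v ∈ C, 0 ≤ c' v := by
      intro v hv
      by_cases hdv : 0 < d v
      · have := hv2min v (Finset.mem_filter.mpr ⟨hv, hdv⟩)
        rw [le_div_iff₀ hdv] at this
        simp only [c']; linarith
      · push Not at hdv
        have h1 := h.pos v hv
        have h2 : t * d v ≤ 0 := mul_nonpos_of_nonneg_of_nonpos htpos.le hdv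
        simp only [c']; linarith
    have hc'2 : c' v2 = 0 := by
      simp only [c', ht]
      field_simp [hv2.2.ne']
      ring
    have hc'0 : 0 < c' v0 := by
      simp only [c', hd0]; simpa using h.pos v0 hv0
    have hsum' : ∑ v ∈ C, c' v • toR v = 0 := by
      have : ∀ v, c' v • toR v = c v • toR v - t • (d v • toR v) := by
        intro v; simp only [c', sub_smul, smul_smul]
      simp_rw [this]
      rw [Finset.sum_sub_distrib, h.sum, ← Finset.smul_sum, hdsum]; simp
    have hrel : PosRel S (C.filter (fun v => 0 < c' v)) c' := by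
      refine ⟨(Finset.filter_subset _ _).trans h.sub, ⟨v0, Finset.mem_filter.mpr ⟨hv0, hc'0⟩⟩,
        fun v hv => (Finset.mem_filter.mp hv).2, ?_⟩
      rw [← hsum', Finset.sum_filter_of_ne]
      intro v hv hne
      rcases (hc'nn v hv).lt_or_eq with h1 | h1
      · exact h1
      · exfalso; apply hne; rw [← h1]; simp
    have hcard := hmin _ _ hrel
    have hlt : (C.filter (fun v => 0 < c' v)).card < C.card := by
      apply Finset.card_lt_card
      refine ⟨Finset.filter_subset _ _, fun hsub => ?_⟩
      have := (Finset.mem_filter.mp (hsub hv2.1)).2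
      linarith
    omega
  rw [linearIndepOn_finset_iff]
  intro d hd v hv
  let d' : (Fin n → ℤ) → ℝ := fun v => if v = v0 then 0 else d v
  have hd'sum : ∑ v ∈ C, d' v • toR v = 0 := by
    rw [← Finset.add_sum_erase C _ hv0]
    simp only [d', if_true, zero_smul, zero_add]
    rw [← hd]
    apply Finset.sum_congr rfl
    intro v hv
    rw [if_neg (Finset.ne_of_mem_erase hv)]
  have hd'0 : d' v0 = 0 := by simp [d']
  have h1 := key d' hd'0 hd'sum v (Finset.mem_of_mem_erase hv)
  have h2 := key (-d') (by simp [hd'0]) (by simp [hd'sum]) v (Finset.mem_of_mem_erase hv)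
  have h3 : d' v = d v := by simp only [d']; rw [if_neg (Finset.ne_of_mem_erase hv)]
  simp only [Pi.neg_apply] at h2
  rw [h3] at h1 h2
  linarith

lemma not_primitive_zero : ¬ IsPrimitive (0 : Fin n → ℤ) := by
  unfold IsPrimitive
  have : Finset.univ.gcd (0 : Fin n → ℤ) = 0 := by
    rw [Finset.gcd_eq_zero_iff]; intros; rfl
  rw [this]; decide

/-- span is everything -/
lemma span_eq_top {S : Finset (Fin n → ℤ)} (hS : IsFanoPolytope S) :
    Submodule.span ℝ (toR '' (S : Set (Fin n → ℤ))) = ⊤ := by
  have h0 := hS.origin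
  have hsub : convexHull ℝ (toR '' (S : Set (Fin n → ℤ))) ⊆
      Submodule.span ℝ (toR '' (S : Set (Fin n → ℤ))) :=
    convexHull_min Submodule.subset_span (Submodule.convex _)
  apply Submodule.eq_top_of_nonempty_interior'
  exact ⟨0, interior_mono hsub h0⟩

lemma structure_thm {S : Finset (Fin n → ℤ)} (hS : IsFanoPolytope S) (hU : Unimod S) :
    ∃ v : Fin n → (Fin n → ℤ), Function.Injective v ∧ (∀ i, v i ∈ S) ∧ (rmat v).det ≠ 0 ∧
      ∃ A : Finset (Fin n), A.Nonempty ∧ -(∑ i ∈ A, v i) ∈ S ∧
        (A = Finset.univ → ∀ s ∈ S, (∃ i, s = v i) ∨ s = -(∑ i, v i)) := by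
  classical
  obtain ⟨C, c, hrel, hmin⟩ := exists_min_posRel hS
  obtain ⟨v0, hv0⟩ := hrel.ne
  have hli := linInd_of_min hrel hmin hv0
  obtain ⟨b, hbS, hCb, hspan, hbli⟩ := exists_linearIndepOn_extension hli
    (show ((C.erase v0 : Finset (Fin n → ℤ)) : Set (Fin n → ℤ)) ⊆ (S : Set (Fin n → ℤ)) from
      fun v hv => hrel.sub (Finset.mem_of_mem_erase hv))
  have hbfin : b.Finite := S.finite_toSet.subset hbS
  have : Fintype b := hbfin.fintype
  have hbtop : ⊤ ≤ Submodule.span ℝ (Set.range (fun x : b => toR (x : Fin n → ℤ))) := by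
    have h1 : Set.range (fun x : b => toR (x : Fin n → ℤ)) = toR '' b := by
      ext y; simp
    rw [h1, ← span_eq_top hS]
    exact Submodule.span_le.mpr hspan
  let B : Module.Basis b ℝ (Fin n → ℝ) := Module.Basis.mk hbli hbtop
  have hcard : Fintype.card b = n := by
    have h1 := Module.finrank_eq_card_basis B
    rw [Module.finrank_fin_fun] at h1
    exact h1.symm
  let e : Fin n ≃ b := (Fintype.equivFinOfCardEq hcard).symm
  let v : Fin n → (Fin n → ℤ) := fun i => (e i : Fin n → ℤ)
  have hvinj : Function.Injective v := fun i j hij => e.injective (Subtype.ext hij)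
  have hvS : ∀ i, v i ∈ S := fun i => hbS (e i).2
  have hvli : LinearIndependent ℝ (fun i => toR (v i)) := by
    have := hbli.comp e e.injective
    exact this
  have hdet : (rmat v).det ≠ 0 := by
    have h1 : LinearIndependent ℝ (rmat v).row := hvli
    rw [Matrix.linearIndependent_rows_iff_isUnit] at h1
    exact ((Matrix.isUnit_iff_isUnit_det _).mp h1).ne_zero
  have hvspan : ⊤ ≤ Submodule.span ℝ (Set.range (fun i => toR (v i))) := by
    have h1 : Set.range (fun i => toR (v i)) = Set.range (fun x : b => toR (x : Fin n → ℤ)) := by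
      ext y
      constructor
      · rintro ⟨i, rfl⟩; exact ⟨e i, rfl⟩
      · rintro ⟨x, rfl⟩; exact ⟨e.symm x, by simp [v]⟩
    rw [h1]; exact hbtop
  have hcoord : ∀ w : Fin n → ℤ, ∃ x : Fin n → ℝ, toR w = ∑ i, x i • toR (v i) := by
    intro w
    have h1 : toR w ∈ Submodule.span ℝ (Set.range (fun i => toR (v i))) := hvspan trivial
    obtain ⟨x, hx⟩ := (Submodule.mem_span_range_iff_exists_fun ℝ).mp h1
    exact ⟨x, hx.symm⟩
  let A : Finset (Fin n) := Finset.univ.filter (fun i => v i ∈ C.erase v0)
  have hAimg : A.image v = C.erase v0 := by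
    ext w
    simp only [A, Finset.mem_image, Finset.mem_filter, Finset.mem_univ, true_and]
    constructor
    · rintro ⟨i, hi, rfl⟩; exact hi
    · intro hw
      refine ⟨e.symm ⟨w, hCb hw⟩, ?_, ?_⟩
      · simpa [v] using hw
      · simp [v]
  have hc0 : 0 < c v0 := hrel.pos v0 hv0
  have hv0eq : toR v0 = ∑ i, (if i ∈ A then -(c (v i) / c v0) else 0) • toR (v i) := by
    have h1 := hrel.sum
    rw [← Finset.add_sum_erase C _ hv0, ← hAimg, Finset.sum_image (fun a _ b _ h => hvinj h)] at h1
    have h2 : ∑ i, (if i ∈ A then -(c (v i) / c v0) else 0) • toR (v i) =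
        ∑ i ∈ A, (-(c (v i) / c v0)) • toR (v i) := by
      rw [← Finset.sum_filter_add_sum_filter_not Finset.univ (fun i => i ∈ A)]
      have h3 : (Finset.univ.filter (fun i => i ∈ A)) = A := by ext i; simp
      rw [h3]
      have h4 : ∑ i ∈ Finset.univ.filter (fun i => ¬ i ∈ A),
          (if i ∈ A then -(c (v i) / c v0) else 0) • toR (v i) = 0 := by
        apply Finset.sum_eq_zero
        intro i hi
        rw [if_neg (Finset.mem_filter.mp hi).2, zero_smul]
      rw [h4, add_zero]
      apply Finset.sum_congr rfl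
      intro i hi
      rw [if_pos hi]
    rw [h2]
    have h5 : ∑ i ∈ A, (-(c (v i) / c v0)) • toR (v i) =
        (-(1 / c v0)) • ∑ i ∈ A, c (v i) • toR (v i) := by
      rw [Finset.smul_sum]
      apply Finset.sum_congr rfl
      intro i _
      rw [smul_smul]
      congr 1
      ring
    rw [h5, ← neg_eq_of_add_eq_zero_right h1, smul_neg, neg_smul, neg_neg, smul_smul]
    rw [one_div, inv_mul_cancel₀ hc0.ne', one_smul]
  have hv0int : v0 = -(∑ i ∈ A, v i) := by
    apply toR_injective
    rw [toR_neg, toR_sum, hv0eq]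
    have h2 : ∀ i, (if i ∈ A then -(c (v i) / c v0) else 0) = if i ∈ A then (-1 : ℝ) else 0 := by
      intro i
      split_ifs with hi
      · have h3 := coord hU hvS hdet (hrel.sub hv0) hv0eq i
        rw [if_pos hi] at h3
        have h4 : 0 < c (v i) / c v0 := by
          apply div_pos _ hc0
          apply hrel.pos
          exact Finset.mem_of_mem_erase (Finset.mem_filter.mp hi).2
        rcases h3 with h3 | h3 | h3
        · linarith
        · linarith
        · exact h3
      · rfl
    simp_rw [h2]
    rw [← Finset.sum_neg_distrib]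
    rw [← Finset.sum_filter_add_sum_filter_not Finset.univ (fun i => i ∈ A)]
    have h3 : (Finset.univ.filter (fun i => i ∈ A)) = A := by ext i; simp
    rw [h3]
    have h4 : ∑ i ∈ Finset.univ.filter (fun i => ¬ i ∈ A),
        (if i ∈ A then (-1 : ℝ) else 0) • toR (v i) = 0 := by
      apply Finset.sum_eq_zero
      intro i hi
      rw [if_neg (Finset.mem_filter.mp hi).2, zero_smul]
    rw [h4, add_zero]
    apply Finset.sum_congr rfl
    intro i hi
    rw [if_pos hi]; simp
  have hCcard : C.card = A.card + 1 := by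
    have h1 : (A.image v).card = A.card := Finset.card_image_of_injective _ hvinj
    rw [hAimg, Finset.card_erase_of_mem hv0] at h1
    have : 0 < C.card := Finset.card_pos.mpr hrel.ne
    omega
  refine ⟨v, hvinj, hvS, hdet, A, ?_, ?_, ?_⟩
  · by_contra hne
    rw [Finset.not_nonempty_iff_eq_empty] at hne
    rw [hne, Finset.sum_empty, neg_zero] at hv0int
    have := hS.primitive v0 (hrel.sub hv0)
    rw [hv0int] at this
    exact not_primitive_zero this
  · rw [← hv0int]; exact hrel.sub hv0
  · intro hAuniv s hs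
    rw [hAuniv] at hv0int hCcard
    rw [Finset.card_univ, Fintype.card_fin] at hCcard
    by_contra hcon
    push Not at hcon
    obtain ⟨hsv, hsv0⟩ := hcon
    rw [← hv0int] at hsv0
    obtain ⟨x, hx⟩ := hcoord s
    have hxc := coord hU hvS hdet hs hx
    by_cases hneg : ∃ j, x j = -1
    · obtain ⟨j, hj⟩ := hneg
      by_cases hposi : ∃ i, x i = 1
      · -- mixed signs: swap `v j` for `v0`
        obtain ⟨i, hi⟩ := hposi
        have hij : i ≠ j := by rintro rfl; linarith
        let v' : Fin n → (Fin n → ℤ) := Function.update v j v0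
        have hv'S : ∀ k, v' k ∈ S := by
          intro k
          by_cases hk : k = j
          · subst hk; simp only [v', Function.update_self]; exact hrel.sub hv0
          · simp only [v', Function.update_of_ne hk]; exact hvS k
        have hv0R : toR v0 = ∑ k, (-1 : ℝ) • toR (v k) := by
          rw [hv0int, toR_neg, toR_sum]
          simp
        have hdet' : (rmat v').det ≠ 0 := by
          have h2 := Matrix.det_updateRow_sum (rmat v) j (fun _ => (-1 : ℝ))
          have h3 : ∑ k, (-1 : ℝ) • rmat v k = toR v0 := by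
            rw [hv0R]; rfl
          rw [h3] at h2
          have h4 : rmat v' = (rmat v).updateRow j (toR v0) := by
            ext a k
            simp only [rmat, v', Matrix.of_apply, Matrix.updateRow_apply, Function.update_apply]
            split_ifs <;> rfl
          rw [h4, h2]
          simp [hdet]
        have hx' : toR s = ∑ k, (if k = j then 1 else x k + 1) • toR (v' k) := by
          rw [← Finset.add_sum_erase _ _ (Finset.mem_univ j)]
          have h5 : ∑ k ∈ Finset.univ.erase j, (if k = j then (1 : ℝ) else x k + 1) • toR (v' k) =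
              ∑ k ∈ Finset.univ.erase j, (x k + 1) • toR (v k) := by
            apply Finset.sum_congr rfl
            intro k hk
            have hkj := Finset.ne_of_mem_erase hk
            rw [if_neg hkj]
            simp only [v', Function.update_of_ne hkj]
          rw [h5]
          simp only [if_true, v', Function.update_self, one_smul]
          rw [hv0R, hx, ← Finset.add_sum_erase _ _ (Finset.mem_univ j),
            ← Finset.add_sum_erase Finset.univ (fun k => (-1 : ℝ) • toR (v k)) (Finset.mem_univ j), hj]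
          simp only [add_smul, Finset.sum_add_distrib, one_smul, neg_smul, Finset.sum_neg_distrib]
          abel
        have h6 := coord hU hv'S hdet' hs hx' i
        rw [if_neg hij, hi] at h6
        rcases h6 with h6 | h6 | h6 <;> norm_num at h6
      · -- all coordinates in `{0,-1}`
        push Not at hposi
        let D : Finset (Fin n) := Finset.univ.filter (fun i => x i = -1)
        have hrel' : PosRel S (insert s (D.image v)) (fun _ => 1) := by
          refine ⟨?_, ⟨s, Finset.mem_insert_self _ _⟩, fun _ _ => one_pos, ?_⟩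
          · intro w hw
            rw [Finset.mem_insert] at hw
            rcases hw with rfl | hw
            · exact hs
            · obtain ⟨i, _, rfl⟩ := Finset.mem_image.mp hw
              exact hvS i
          · rw [Finset.sum_insert, Finset.sum_image (fun a _ b _ h => hvinj h)]
            · simp only [one_smul]
              rw [hx]
              have h7 : ∑ i, x i • toR (v i) = ∑ i ∈ D, - toR (v i) := by
                rw [← Finset.sum_filter_add_sum_filter_not Finset.univ (fun i => x i = -1)]
                have h8 : ∑ i ∈ Finset.univ.filter (fun i => ¬ x i = -1), x i • toR (v i) = 0 := by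
                  apply Finset.sum_eq_zero
                  intro i hi
                  have h9 := (Finset.mem_filter.mp hi).2
                  rcases hxc i with h | h | h
                  · rw [h, zero_smul]
                  · exact absurd h (hposi i)
                  · exact absurd h h9
                rw [h8, add_zero]
                apply Finset.sum_congr rfl
                intro i hi
                rw [(Finset.mem_filter.mp hi).2]; simp
              rw [h7, Finset.sum_neg_distrib]; simp
            · intro hmem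
              obtain ⟨i, _, hi⟩ := Finset.mem_image.mp hmem
              exact hsv i hi.symm
        have h10 := hmin _ _ hrel'
        have h11 : (insert s (D.image v)).card ≤ D.card + 1 := by
          refine (Finset.card_insert_le _ _).trans ?_
          exact Nat.add_le_add_right Finset.card_image_le 1
        have h12 : D.card = n := by
          have : D.card ≤ n := by
            simpa using Finset.card_le_univ D
          omega
        have h13 : D = Finset.univ := by
          rw [← Finset.card_eq_iff_eq_univ, h12, Fintype.card_fin]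
        apply hsv0
        apply toR_injective
        rw [hx, hv0int, toR_neg, toR_sum, ← Finset.sum_neg_distrib]
        apply Finset.sum_congr rfl
        intro i _
        have : i ∈ D := by rw [h13]; exact Finset.mem_univ i
        rw [(Finset.mem_filter.mp this).2]; simp
    · -- all coordinates in `{0,1}`
      push Not at hneg
      let D : Finset (Fin n) := Finset.univ.filter (fun i => x i = 1)
      have hxD : toR s = ∑ i ∈ D, toR (v i) := by
        rw [hx, ← Finset.sum_filter_add_sum_filter_not Finset.univ (fun i => x i = 1)]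
        have h8 : ∑ i ∈ Finset.univ.filter (fun i => ¬ x i = 1), x i • toR (v i) = 0 := by
          apply Finset.sum_eq_zero
          intro i hi
          have h9 := (Finset.mem_filter.mp hi).2
          rcases hxc i with h | h | h
          · rw [h, zero_smul]
          · exact absurd h h9
          · exact absurd h (hneg i)
        rw [h8, add_zero]
        apply Finset.sum_congr rfl
        intro i hi
        rw [(Finset.mem_filter.mp hi).2]; simp
      have hv0notin : v0 ∉ (Dᶜ).image v := by
        intro hmem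
        obtain ⟨i, _, hi⟩ := Finset.mem_image.mp hmem
        have h1 : v0 ∈ A.image v := by
          rw [hAuniv, ← hi]; exact Finset.mem_image_of_mem _ (Finset.mem_univ i)
        rw [hAimg] at h1
        exact Finset.ne_of_mem_erase h1 rfl
      have hrel' : PosRel S (insert s (insert v0 ((Dᶜ).image v))) (fun _ => 1) := by
        refine ⟨?_, ⟨s, Finset.mem_insert_self _ _⟩, fun _ _ => one_pos, ?_⟩
        · intro w hw
          rw [Finset.mem_insert, Finset.mem_insert] at hw
          rcases hw with rfl | rfl | hw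
          · exact hs
          · exact hrel.sub hv0
          · obtain ⟨i, _, rfl⟩ := Finset.mem_image.mp hw
            exact hvS i
        · rw [Finset.sum_insert, Finset.sum_insert hv0notin,
            Finset.sum_image (fun a _ b _ h => hvinj h)]
          · simp only [one_smul]
            rw [hxD, hv0int, toR_neg, toR_sum, ← Finset.sum_add_sum_compl D]
            abel
          · intro hmem
            rw [Finset.mem_insert] at hmem
            rcases hmem with h | h
            · exact hsv0 h
            · obtain ⟨i, _, hi⟩ := Finset.mem_image.mp h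
              exact hsv i hi.symm
      have h10 := hmin _ _ hrel'
      have h11 : (insert s (insert v0 ((Dᶜ).image v))).card ≤ (Dᶜ).card + 1 + 1 := by
        refine (Finset.card_insert_le _ _).trans ?_
        refine Nat.add_le_add_right ?_ 1
        refine (Finset.card_insert_le _ _).trans ?_
        exact Nat.add_le_add_right Finset.card_image_le 1
      have h12 : (Dᶜ).card = n - D.card := by
        rw [Finset.card_compl, Fintype.card_fin]
      have h13 : D.card ≤ n := by simpa using Finset.card_le_univ D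
      have h14 : D.card ≤ 1 := by omega
      rcases Nat.le_one_iff_eq_zero_or_eq_one.mp h14 with h15 | h15
      · rw [Finset.card_eq_zero] at h15
        rw [h15, Finset.sum_empty, ← toR_zero] at hxD
        have := hS.primitive s hs
        rw [toR_injective hxD] at this
        exact not_primitive_zero this
      · obtain ⟨i, hi⟩ := Finset.card_eq_one.mp h15
        rw [hi, Finset.sum_singleton] at hxD
        exact hsv i (toR_injective hxD)


end

/-! ## Equality -/

section

variable {n : ℕ}



lemma good_of {S : Finset (Fin n → ℤ)} (hS : IsFanoPolytope S) (hK : IsKSemistable S)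
    {v : Fin n → (Fin n → ℤ)} (hvS : ∀ i, v i ∈ S) (A : Finset (Fin n))
    (hA : ∀ x ∈ polytope S, ∑ i ∈ A, pair (v i) x ≤ 1) : Good (rmat v) A (polytope S) := by
  refine ⟨isClosed_polytope S, isBounded_polytope hS, fun x hx i => hx (v i) (hvS i), ?_, ?_⟩
  · intro x hx
    exact hA x hx
  · have h1 := integral_pair_nonpos hS hK (∑ i ∈ Aᶜ, v i)
    simp_rw [pair_sum_left] at h1
    exact h1

/-- existence of points with prescribed coordinates -/
lemma exists_aff_eq {v : Fin n → (Fin n → ℤ)} (hdet : (rmat v).det ≠ 0) (y : Fin n → ℝ) :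
    ∃ x, aff (rmat v) x = y := by
  refine ⟨(rmat v)⁻¹.mulVec (fun i => y i - 1), ?_⟩
  funext i
  simp only [aff]
  rw [Matrix.mulVec_mulVec, Matrix.mul_nonsing_inv _ (Ne.isUnit hdet), Matrix.one_mulVec]
  ring

lemma exists_coord {v : Fin n → (Fin n → ℤ)} (hdet : (rmat v).det ≠ 0) (w : Fin n → ℤ) :
    ∃ z : Fin n → ℝ, toR w = ∑ i, z i • toR (v i) := by
  refine ⟨((rmat v).transpose)⁻¹.mulVec (toR w), ?_⟩
  have hdet' : IsUnit (rmat v).transpose.det := by
    rw [Matrix.det_transpose]; exact Ne.isUnit hdet
  have h1 : (rmat v).transpose.mulVec (((rmat v).transpose)⁻¹.mulVec (toR w)) = toR w := by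
    rw [Matrix.mulVec_mulVec, Matrix.mul_nonsing_inv _ hdet', Matrix.one_mulVec]
  conv_lhs => rw [← h1]
  funext k
  simp only [Matrix.mulVec, dotProduct, Matrix.transpose_apply, rmat, Matrix.of_apply,
    Finset.sum_apply, Pi.smul_apply, smul_eq_mul]
  exact Finset.sum_congr rfl fun i _ => by ring

lemma pair_of_coord {v : Fin n → (Fin n → ℤ)} {w : Fin n → ℤ} {z : Fin n → ℝ}
    (hz : toR w = ∑ i, z i • toR (v i)) (x : Fin n → ℝ) :
    pair w x = ∑ i, z i * pair (v i) x := by
  rw [← lin_toR, hz, map_sum]
  simp [lin_toR]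

/-- the facet of the second block is cut out by a vertex of `S` -/
lemma facet_mem {S : Finset (Fin n → ℤ)} {v : Fin n → (Fin n → ℤ)} (hdet : (rmat v).det ≠ 0)
    {A : Finset (Fin n)} (hAc : (Aᶜ).Nonempty)
    (hP : polytope S = aff (rmat v) ⁻¹' (block A (A.card + 1) (Aᶜ.card + 1))) :
    -(∑ i ∈ Aᶜ, v i) ∈ S := by
  classical
  set b : ℝ := (Aᶜ.card : ℝ) with hb
  have hbpos : 0 < b := by rw [hb]; exact_mod_cast Finset.card_pos.mpr hAc
  let y0 : Fin n → ℝ := fun i => if i ∈ A then 1 / 2 else (b + 1) / b
  obtain ⟨x0, hx0⟩ := exists_aff_eq hdet y0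
  have hsumA : ∑ i ∈ A, y0 i = A.card / 2 := by
    rw [Finset.sum_congr rfl (fun i hi => show y0 i = 1 / 2 from if_pos hi)]
    simp; ring
  have hsumAc : ∑ i ∈ Aᶜ, y0 i = b + 1 := by
    rw [Finset.sum_congr rfl (fun i hi => show y0 i = (b + 1) / b from
      if_neg (Finset.mem_compl.mp hi))]
    rw [Finset.sum_const, nsmul_eq_mul, ← hb]
    field_simp
  have hcard0 : (0 : ℝ) ≤ A.card := by positivity
  have hx0P : x0 ∈ polytope S := by
    rw [hP, mem_preimage, hx0]
    refine ⟨fun i => ?_, ?_, ?_⟩
    · simp only [y0]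
      split_ifs
      · norm_num
      · positivity
    · rw [hsumA]; linarith
    · rw [hsumAc]
  have hex : ∃ s ∈ S, pair s x0 = -1 := by
    by_contra hcon
    push Not at hcon
    have hopen : IsOpen (⋂ s ∈ S, {x : Fin n → ℝ | -1 < pair s x}) :=
      isOpen_biInter_finset fun s _ => isOpen_lt continuous_const (continuous_pair s)
    have hmem : x0 ∈ ⋂ s ∈ S, {x : Fin n → ℝ | -1 < pair s x} := by
      simp only [mem_iInter, mem_ofPred_eq]
      intro s hs
      exact lt_of_le_of_ne (hx0P s hs) (Ne.symm (hcon s hs))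
    have hcont : Filter.Tendsto (fun t : ℝ => t • x0) (nhdsWithin 1 (Ioi 1)) (nhds x0) := by
      have h1 : Filter.Tendsto (fun t : ℝ => t • x0) (nhds 1) (nhds ((1 : ℝ) • x0)) :=
        (continuous_id.smul continuous_const).tendsto 1
      rw [one_smul] at h1
      exact h1.mono_left nhdsWithin_le_nhds
    have hev : ∀ᶠ t in nhdsWithin (1 : ℝ) (Ioi 1),
        t • x0 ∈ ⋂ s ∈ S, {x : Fin n → ℝ | -1 < pair s x} := hcont (hopen.mem_nhds hmem)
    obtain ⟨t, ht1, ht2⟩ := (hev.and self_mem_nhdsWithin).exists
    have htP : t • x0 ∈ polytope S := by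
      intro s hs
      simp only [mem_iInter, mem_ofPred_eq] at ht1
      exact (ht1 s hs).le
    rw [hP, mem_preimage] at htP
    have h3 := htP.2.2
    have h4 : ∀ i, aff (rmat v) (t • x0) i = t * (y0 i - 1) + 1 := by
      intro i
      rw [← hx0]
      simp only [aff, Matrix.mulVec_smul, Pi.smul_apply, smul_eq_mul]
      ring
    simp_rw [h4] at h3
    rw [Finset.sum_add_distrib, ← Finset.mul_sum, Finset.sum_sub_distrib, hsumAc] at h3
    simp only [Finset.sum_const, nsmul_eq_mul, mul_one] at h3
    rw [← hb] at h3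
    have ht2' : 1 < t := ht2
    nlinarith
  obtain ⟨s, hs, hsx⟩ := hex
  obtain ⟨z, hz⟩ := exists_coord hdet s
  -- perturbation
  have hpert : ∀ d : Fin n → ℝ, (fun i => y0 i + d i) ∈
      block A ((A.card : ℝ) + 1) ((Aᶜ.card : ℝ) + 1) → 0 ≤ ∑ i, z i * d i := by
    intro d hd
    obtain ⟨x, hx⟩ := exists_aff_eq hdet (fun i => y0 i + d i)
    have hxP : x ∈ polytope S := by
      rw [hP, mem_preimage, hx]; exact hd
    have h1 := hxP s hs
    rw [pair_of_coord hz] at h1 hsx
    have h2 : ∀ i, pair (v i) x = y0 i + d i - 1 := by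
      intro i
      have := congrFun hx i
      simp only [aff] at this
      rw [rmat_mulVec] at this
      linarith
    have h3 : ∀ i, pair (v i) x0 = y0 i - 1 := by
      intro i
      have := congrFun hx0 i
      simp only [aff] at this
      rw [rmat_mulVec] at this
      linarith
    simp_rw [h2] at h1
    simp_rw [h3] at hsx
    have h4 : ∑ i, z i * (y0 i + d i - 1) = ∑ i, z i * (y0 i - 1) + ∑ i, z i * d i := by
      rw [← Finset.sum_add_distrib]
      exact Finset.sum_congr rfl fun i _ => by ring
    rw [h4, hsx] at h1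
    linarith
  have hsingle : ∀ (j : Fin n) (r : ℝ), ∑ i, z i * (Pi.single j r : Fin n → ℝ) i = z j * r := by
    intro j r
    rw [Finset.sum_eq_single j]
    · simp
    · intro i _ hi; simp [Pi.single_eq_of_ne hi]
    · simp
  have hsumsingle : ∀ (B : Finset (Fin n)) (j : Fin n) (r : ℝ),
      ∑ i ∈ B, (Pi.single j r : Fin n → ℝ) i = if j ∈ B then r else 0 := by
    intro B j r
    by_cases hj : j ∈ B
    · rw [if_pos hj, Finset.sum_eq_single j]
      · simp
      · intro i _ hi; simp [Pi.single_eq_of_ne hi]
      · exact fun h => absurd hj h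
    · rw [if_neg hj]
      apply Finset.sum_eq_zero
      intro i hi
      have : i ≠ j := by rintro rfl; exact hj hi
      simp [Pi.single_eq_of_ne this]
  have hzA : ∀ j ∈ A, z j = 0 := by
    intro j hj
    have key : ∀ r : ℝ, |r| ≤ 1 / 4 → 0 ≤ z j * r := by
      intro r hr
      rw [abs_le] at hr
      rw [← hsingle j r]
      apply hpert
      refine ⟨fun i => ?_, ?_, ?_⟩
      · by_cases hij : i = j
        · subst hij
          simp only [y0, if_pos hj, Pi.single_eq_same]
          linarith [hr.1]
        · simp only [y0, Pi.single_eq_of_ne hij]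
          split_ifs
          · norm_num
          · positivity
      · rw [Finset.sum_add_distrib, hsumsingle, if_pos hj, hsumA]
        linarith [hr.2]
      · rw [Finset.sum_add_distrib, hsumsingle, if_neg (by simpa using hj), hsumAc]
        simp [hb]
    have h1 := key (1 / 4) (by norm_num [abs_of_pos])
    have h2 := key (-(1 / 4)) (by norm_num [abs_of_pos])
    linarith
  have hzAc : ∀ j ∈ Aᶜ, ∀ k ∈ Aᶜ, z j ≤ z k := by
    intro j hj k hk
    by_cases hjk : j = k
    · rw [hjk]
    have h1 : 0 ≤ ∑ i, z i * ((Pi.single k (1 / 2) : Fin n → ℝ) i + (Pi.single j (-(1 / 2)) : Fin n → ℝ) i) := by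
      apply hpert
      have hge1 : 1 ≤ (b + 1) / b := by rw [le_div_iff₀ hbpos]; linarith
      refine ⟨fun i => ?_, ?_, ?_⟩
      · have hjA := Finset.mem_compl.mp hj
        have hkA := Finset.mem_compl.mp hk
        by_cases hij : i = j
        · subst hij
          simp only [y0, if_neg hjA, Pi.single_eq_same, Pi.single_eq_of_ne hjk]
          linarith
        · by_cases hik : i = k
          · subst hik
            simp only [y0, if_neg hkA, Pi.single_eq_same, Pi.single_eq_of_ne hij]
            linarith
          · simp only [y0, Pi.single_eq_of_ne hij, Pi.single_eq_of_ne hik]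
            split_ifs
            · norm_num
            · positivity
      · rw [Finset.sum_add_distrib, Finset.sum_add_distrib, hsumsingle, hsumsingle,
          if_neg (Finset.mem_compl.mp hj), if_neg (Finset.mem_compl.mp hk), hsumA]
        linarith
      · rw [Finset.sum_add_distrib, Finset.sum_add_distrib, hsumsingle, hsumsingle,
          if_pos hj, if_pos hk, hsumAc]
        simp [hb]
    simp_rw [mul_add] at h1
    rw [Finset.sum_add_distrib, hsingle, hsingle] at h1
    linarith
  obtain ⟨k, hk⟩ := hAc
  have hzeq : ∀ j ∈ Aᶜ, z j = z k := fun j hj => le_antisymm (hzAc j hj k hk) (hzAc k hk j hj)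
  have hzk : z k = -1 := by
    rw [pair_of_coord hz] at hsx
    have h3 : ∀ i, pair (v i) x0 = y0 i - 1 := by
      intro i
      have := congrFun hx0 i
      simp only [aff] at this
      rw [rmat_mulVec] at this
      linarith
    simp_rw [h3] at hsx
    rw [← Finset.sum_add_sum_compl A] at hsx
    rw [Finset.sum_eq_zero (fun i hi => by rw [hzA i hi, zero_mul]), zero_add] at hsx
    rw [Finset.sum_congr rfl (fun i hi => by rw [hzeq i hi]), ← Finset.mul_sum,
      Finset.sum_sub_distrib, hsumAc] at hsx
    simp only [Finset.sum_const, nsmul_eq_mul, mul_one] at hsx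
    rw [← hb] at hsx
    linarith
  have hfin : s = -(∑ i ∈ Aᶜ, v i) := by
    apply toR_injective
    rw [toR_neg, toR_sum, hz, ← Finset.sum_add_sum_compl A]
    rw [Finset.sum_eq_zero (fun i hi => by rw [hzA i hi, zero_smul]), zero_add,
      ← Finset.sum_neg_distrib]
    apply Finset.sum_congr rfl
    intro i hi
    rw [hzeq i hi, hzk]; simp
  rw [← hfin]; exact hs

/-- no further vertices -/
lemma no_more {S : Finset (Fin n → ℤ)} (hS : IsFanoPolytope S) {v : Fin n → (Fin n → ℤ)}
    (hvS : ∀ i, v i ∈ S) {A : Finset (Fin n)} 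
    (hA : -(∑ i ∈ A, v i) ∈ S) (hA' : -(∑ i ∈ Aᶜ, v i) ∈ S)
    (hP : polytope S = aff (rmat v) ⁻¹' (block A (A.card + 1) (Aᶜ.card + 1))) :
    S = Finset.univ.image v ∪ {-(∑ i ∈ A, v i), -(∑ i ∈ Aᶜ, v i)} := by
  classical
  apply Finset.Subset.antisymm
  swap
  · intro w hw
    rw [Finset.mem_union, Finset.mem_image, Finset.mem_insert, Finset.mem_singleton] at hw
    rcases hw with ⟨i, _, rfl⟩ | rfl | rfl
    · exact hvS i
    · exact hA
    · exact hA'
  intro s hs
  by_contra hsT
  set T : Finset (Fin n → ℤ) := Finset.univ.image v ∪ {-(∑ i ∈ A, v i), -(∑ i ∈ Aᶜ, v i)} with hT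
  have hTS : (T : Set (Fin n → ℤ)) ⊆ (S : Set (Fin n → ℤ)) \ {s} := by
    intro w hw
    refine ⟨?_, ?_⟩
    · rw [hT, Finset.mem_coe, Finset.mem_union, Finset.mem_image, Finset.mem_insert,
        Finset.mem_singleton] at hw
      rcases hw with ⟨i, _, rfl⟩ | rfl | rfl
      · exact hvS i
      · exact hA
      · exact hA'
    · rintro rfl
      exact hsT hw
  have hnot : toR s ∉ convexHull ℝ (toR '' (T : Set (Fin n → ℤ))) := by
    intro hmem
    exact hS.vertex s hs (convexHull_mono (image_mono hTS) hmem)
  have hclosed : IsClosed (convexHull ℝ (toR '' (T : Set (Fin n → ℤ)))) := by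
    have : (toR '' (T : Set (Fin n → ℤ))).Finite := T.finite_toSet.image _
    exact this.isClosed_convexHull ℝ
  obtain ⟨f, u, hfu, hfT⟩ := geometric_hahn_banach_point_closed (convex_convexHull ℝ _) hclosed hnot
  let x : Fin n → ℝ := fun i => f (Pi.single i 1)
  have hfx : ∀ w : Fin n → ℤ, f (toR w) = pair w x := by
    intro w
    have h1 : toR w = ∑ i, (w i : ℝ) • (Pi.single i (1 : ℝ) : Fin n → ℝ) := by
      rw [← pi_eq_sum_univ']; rfl
    rw [h1, map_sum]
    simp [pair, x]
  have hT' : ∀ w ∈ T, u < pair w x := by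
    intro w hw
    rw [← hfx]
    exact hfT _ (subset_convexHull ℝ _ (mem_image_of_mem _ hw))
  have hvT : ∀ i, v i ∈ T := fun i =>
    Finset.mem_union_left _ (Finset.mem_image_of_mem _ (Finset.mem_univ i))
  have h0T : -(∑ i ∈ A, v i) ∈ T := Finset.mem_union_right _ (by simp)
  have h1T : -(∑ i ∈ Aᶜ, v i) ∈ T := Finset.mem_union_right _ (by simp)
  have hneg : ∀ B : Finset (Fin n), pair (-(∑ i ∈ B, v i)) x = - ∑ i ∈ B, pair (v i) x := by
    intro B
    rw [← pair_sum_left]
    simp [pair]
  have hu : u < 0 := by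
    have h1 := hT' _ h0T
    rw [hneg] at h1
    have h2 : (A.card : ℝ) * u ≤ ∑ i ∈ A, pair (v i) x := by
      rw [← nsmul_eq_mul]
      exact Finset.card_nsmul_le_sum A _ u (fun i _ => (hT' _ (hvT i)).le)
    by_contra hu
    push Not at hu
    have h3 : (0 : ℝ) ≤ A.card := by positivity
    nlinarith [mul_nonneg h3 hu]
  have hu' : 0 < -u := by linarith
  set x' : Fin n → ℝ := (1 / (-u)) • x with hx'
  have hpx' : ∀ w : Fin n → ℤ, pair w x' = pair w x / (-u) := by
    intro w
    rw [hx', pair_smul_right]; ring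
  have hx'P : x' ∈ polytope S := by
    rw [hP, mem_preimage]
    have haff : ∀ i, aff (rmat v) x' i = pair (v i) x / (-u) + 1 := by
      intro i
      simp only [aff]
      rw [rmat_mulVec, hpx']
    refine ⟨fun i => ?_, ?_, ?_⟩
    · rw [haff]
      have := hT' _ (hvT i)
      have : -1 < pair (v i) x / (-u) := by rw [lt_div_iff₀ hu']; linarith
      linarith
    · simp_rw [haff]
      rw [Finset.sum_add_distrib, ← Finset.sum_div]
      have := hT' _ h0T
      rw [hneg] at this
      have : (∑ i ∈ A, pair (v i) x) / (-u) ≤ 1 := by rw [div_le_one hu']; linarith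
      simp only [Finset.sum_const, nsmul_eq_mul, mul_one]
      linarith
    · simp_rw [haff]
      rw [Finset.sum_add_distrib, ← Finset.sum_div]
      have := hT' _ h1T
      rw [hneg] at this
      have : (∑ i ∈ Aᶜ, pair (v i) x) / (-u) ≤ 1 := by rw [div_le_one hu']; linarith
      simp only [Finset.sum_const, nsmul_eq_mul, mul_one]
      linarith
  have h1 := hx'P s hs
  rw [hpx'] at h1
  rw [hfx] at hfu
  have : pair s x / (-u) < -1 := by rw [div_lt_iff₀ hu']; linarith
  linarith


end

/-! ## Dichotomy -/

section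

variable {n : ℕ}



lemma sum_single_smul (v : Fin n → (Fin n → ℤ)) (w : Fin n → ℤ) :
    (Matrix.of (fun r c => v c r)).mulVec w = ∑ i, w i • v i := by
  funext r
  simp only [Matrix.mulVec, dotProduct, Matrix.of_apply, Finset.sum_apply, Pi.smul_apply, smul_eq_mul]
  exact Finset.sum_congr rfl fun i _ => by ring

lemma det_of_transpose (v : Fin n → (Fin n → ℤ)) :
    (Matrix.of (fun r c => v c r)).det = (Matrix.of v).det := by
  rw [← Matrix.det_transpose]; rfl

lemma det_of_perm (v : Fin n → (Fin n → ℤ)) (σ : Equiv.Perm (Fin n)) :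
    |(Matrix.of (fun i => v (σ i))).det| = |(Matrix.of v).det| := by
  have h : (Matrix.of (fun i => v (σ i))) = (Matrix.of v).submatrix σ id := rfl
  rw [h, Matrix.det_permute, abs_mul]
  rcases Int.units_eq_one_or (Equiv.Perm.sign σ) with h | h <;> rw [h] <;> simp

lemma isomorphic_projectiveSpace {S : Finset (Fin n → ℤ)} {v : Fin n → (Fin n → ℤ)}
    (hdet : |(Matrix.of v).det| = 1) (hS : S = Finset.univ.image v ∪ {-(∑ i, v i)}) :
    Isomorphic (projectiveSpace n) S := by
  classical
  refine ⟨Matrix.of (fun r c => v c r), ?_, ?_⟩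
  · rw [det_of_transpose, Int.isUnit_iff]
    rcases abs_eq (zero_le_one) |>.mp hdet with h | h
    · left; exact h
    · right; exact h
  · rw [hS, projectiveSpace, Finset.image_union, Finset.image_image, Finset.image_singleton]
    congr 1
    · apply Finset.image_congr
      intro i _
      simp only [Function.comp]
      rw [sum_single_smul, Finset.sum_eq_single i]
      · simp
      · intro j _ hj; simp [Pi.single_eq_of_ne hj]
      · simp
    · rw [sum_single_smul]
      simp

lemma isomorphic_line (hn : 2 ≤ n) {S : Finset (Fin n → ℤ)} {v : Fin n → (Fin n → ℤ)}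
    (hdet : |(Matrix.of v).det| = 1) (i0 : Fin n)
    (hS : S = Finset.univ.image v ∪ {-(v i0), -(∑ i ∈ {i0}ᶜ, v i)}) :
    Isomorphic (lineTimesProjectiveSpace n) S := by
  classical
  let z : Fin n := ⟨0, by omega⟩
  let σ : Equiv.Perm (Fin n) := Equiv.swap z i0
  have hσ : σ z = i0 := Equiv.swap_apply_left _ _
  let v' : Fin n → (Fin n → ℤ) := fun i => v (σ i)
  refine ⟨Matrix.of (fun r c => v' c r), ?_, ?_⟩
  · rw [det_of_transpose, Int.isUnit_iff]
    have h1 : |(Matrix.of v').det| = 1 := by rw [← hdet]; exact det_of_perm v σ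
    rcases abs_eq (zero_le_one) |>.mp h1 with h | h
    · left; exact h
    · right; exact h
  · rw [hS, lineTimesProjectiveSpace, Finset.image_union, Finset.image_image, Finset.image_insert,
      Finset.image_singleton]
    have hz : ∀ i : Fin n, (i : ℕ) = 0 ↔ i = z := by
      intro i; rw [Fin.ext_iff]
    congr 1
    · have h1 : (Finset.univ.image ((Matrix.of fun r c => v' c r).mulVec ∘
          fun i : Fin n => (Pi.single i 1 : Fin n → ℤ))) = Finset.univ.image v' := by
        apply Finset.image_congr
        intro i _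
        simp only [Function.comp]
        rw [sum_single_smul, Finset.sum_eq_single i]
        · simp
        · intro j _ hj; simp [Pi.single_eq_of_ne hj]
        · simp
      rw [h1]
      ext w
      simp only [Finset.mem_image, Finset.mem_univ, true_and, v']
      constructor
      · rintro ⟨i, rfl⟩; exact ⟨σ.symm i, by simp⟩
      · rintro ⟨i, rfl⟩; exact ⟨σ i, rfl⟩
    · have h2 : (Matrix.of fun r c => v' c r).mulVec (fun i => if (i : ℕ) = 0 then -1 else 0) =
          -(v i0) := by
        rw [sum_single_smul, Finset.sum_eq_single z]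
        · simp [v', hσ, z]
        · intro j _ hj
          have : ¬ ((j : ℕ) = 0) := fun h => hj ((hz j).mp h)
          simp [this]
        · simp
      have h3 : (Matrix.of fun r c => v' c r).mulVec (fun i => if (i : ℕ) = 0 then 0 else -1) =
          -(∑ i ∈ {i0}ᶜ, v i) := by
        rw [sum_single_smul, ← Finset.sum_neg_distrib]
        have h4 : ∑ i : Fin n, (if (i : ℕ) = 0 then (0 : ℤ) else -1) • v' i = ∑ i ∈ {z}ᶜ, -(v' i) := by
          rw [← Finset.sum_add_sum_compl {z}]
          simp only [Finset.sum_singleton]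
          have h5 : ((z : Fin n) : ℕ) = 0 := rfl
          rw [if_pos h5, zero_smul, zero_add]
          apply Finset.sum_congr rfl
          intro i hi
          have : ¬ ((i : ℕ) = 0) := by
            intro h
            rw [hz] at h
            simp [h] at hi
          rw [if_neg this]; simp
        rw [h4]
        apply Finset.sum_bij (fun i _ => σ i)
        · intro i hi
          simp only [Finset.mem_compl, Finset.mem_singleton] at hi ⊢
          intro h
          apply hi
          apply σ.injective
          rw [h, hσ]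
        · intro i _ j _ h; exact σ.injective h
        · intro j hj
          refine ⟨σ.symm j, ?_, by simp⟩
          simp only [Finset.mem_compl, Finset.mem_singleton] at hj ⊢
          intro h
          apply hj
          rw [← hσ, ← h]; simp
        · intro i _; rfl
      rw [h2, h3]

/-- the main dichotomy -/
theorem dichotomy (hn : 2 ≤ n) {S : Finset (Fin n → ℤ)} (hS : IsFanoPolytope S)
    (hK : IsKSemistable S) :
    Isomorphic (projectiveSpace n) S ∨ degree S < 2 * (n : ℝ) ^ n ∨
      Isomorphic (lineTimesProjectiveSpace n) S := by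
  classical
  by_cases hU : Unimod S
  · obtain ⟨v, hvinj, hvS, hdet, A, hAne, hAS, hAuniv⟩ := structure_thm hS hU
    have hdetabs : |(Matrix.of v).det| = 1 := by
      have h1 := hU v hvS
      have h2 : (Matrix.of v).det ≠ 0 := by
        rw [det_rmat] at hdet; exact_mod_cast hdet
      have h3 : 0 < |(Matrix.of v).det| := abs_pos.mpr h2
      omega
    have hdetR : |(rmat v).det| = 1 := by
      rw [det_rmat]; exact_mod_cast hdetabs
    by_cases hA : A = Finset.univ
    · left
      apply isomorphic_projectiveSpace hdetabs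
      ext s
      rw [Finset.mem_union, Finset.mem_image, Finset.mem_singleton]
      constructor
      · intro hs
        rcases hAuniv hA s hs with ⟨i, hi⟩ | hi
        · left; exact ⟨i, Finset.mem_univ _, hi.symm⟩
        · right; exact hi
      · rintro (⟨i, _, rfl⟩ | rfl)
        · exact hvS i
        · rw [hA] at hAS; exact hAS
    · right
      have ha : 1 ≤ A.card := Finset.card_pos.mpr hAne
      have hAcne : (Aᶜ).Nonempty := by
        rw [Finset.nonempty_iff_ne_empty]
        intro h
        exact hA (by rwa [Finset.compl_eq_empty_iff] at h)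
      have hb : 1 ≤ (Aᶜ).card := Finset.card_pos.mpr hAcne
      have hab : A.card + (Aᶜ).card = n := by
        rw [Finset.card_add_card_compl, Fintype.card_fin]
      have hgood : Good (rmat v) A (polytope S) := by
        apply good_of hS hK hvS
        intro x hx
        have h1 := hx _ hAS
        have h2 : pair (-(∑ i ∈ A, v i)) x = - ∑ i ∈ A, pair (v i) x := by
          rw [← pair_sum_left]; simp [pair]
        rw [h2] at h1
        linarith
      have hvol := hgood.vol_le hdet
      rw [hdetR, one_mul] at hvol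
      obtain ⟨hphi, hphieq⟩ := phi_mul_le ha hb
      rw [hab] at hphi hphieq
      have hfac : (0 : ℝ) < n.factorial := by positivity
      by_cases hlt : (volume (polytope S)).toReal < phi 1 * phi (n - 1)
      · left
        rw [← factorial_mul_phi (by omega : 1 ≤ n)]
        unfold degree
        exact mul_lt_mul_of_pos_left hlt hfac
      · right
        push Not at hlt
        have h3 : phi A.card * phi (Aᶜ).card = phi 1 * phi (n - 1) := le_antisymm hphi (hlt.trans hvol)
        have hP := hgood.eq_of_eq hdet (convex_polytope S) ⟨0, zero_mem_interior_polytope S⟩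
          (by rw [hdetR, one_mul]; exact le_antisymm hvol (h3 ▸ hlt))
        have hAS' := facet_mem hdet hAcne hP
        have hSeq := no_more hS hvS hAS hAS' hP
        rcases hphieq h3 with h4 | h4
        · obtain ⟨i0, hi0⟩ := Finset.card_eq_one.mp h4
          rw [hi0, Finset.sum_singleton] at hSeq
          exact isomorphic_line hn hdetabs i0 hSeq
        · obtain ⟨i0, hi0⟩ := Finset.card_eq_one.mp h4
          have hA' : A = {i0}ᶜ := by rw [← hi0, compl_compl]
          rw [hi0, Finset.sum_singleton, hA', Finset.pair_comm] at hSeq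
          exact isomorphic_line hn hdetabs i0 hSeq
  · right; left
    unfold Unimod at hU
    push Not at hU
    obtain ⟨v, hvS, hv⟩ := hU
    have hv2 : 2 ≤ |(Matrix.of v).det| := by omega
    have hdet : (rmat v).det ≠ 0 := by
      rw [det_rmat]
      intro h
      have : (Matrix.of v).det = 0 := by exact_mod_cast h
      rw [this] at hv2; simp at hv2
    have hdetR : 2 ≤ |(rmat v).det| := by
      rw [det_rmat]; exact_mod_cast hv2
    have hgood : Good (rmat v) ∅ (polytope S) := by
      apply good_of hS hK hvS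
      intro x _
      simp
    have hvol := hgood.vol_le hdet
    rw [Finset.card_empty, phi_zero, one_mul, Finset.compl_empty, Finset.card_univ,
      Fintype.card_fin] at hvol
    have hpos := volume_polytope_toReal_pos hS
    have h2 : (volume (polytope S)).toReal ≤ phi n / 2 := by
      rw [le_div_iff₀ (by norm_num)]
      nlinarith
    have hfac : (0 : ℝ) < n.factorial := by positivity
    unfold degree
    calc (n.factorial : ℝ) * (volume (polytope S)).toReal ≤ n.factorial * (phi n / 2) := by gcongr
      _ < _ := factorial_mul_phi_half_lt (by omega)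

/-! ### the polytope of `ℙ¹ × ℙⁿ⁻¹` -/

/-- degree is invariant -/
lemma degree_isomorphic {S S' : Finset (Fin n → ℤ)} (h : Isomorphic S S') :
    degree S' = degree S := by
  obtain ⟨g, hg, rfl⟩ := h
  unfold degree
  congr 2
  let G : Matrix (Fin n) (Fin n) ℝ := (g.map (Int.cast : ℤ → ℝ)).transpose
  have hG : |G.det| = 1 := by
    simp only [G]
    rw [Matrix.det_transpose, show (g.map (Int.cast : ℤ → ℝ)).det = ((g.det : ℤ) : ℝ) from
      (Int.cast_det g).symm]
    rcases Int.isUnit_iff.mp hg with h | h <;> rw [h] <;> simp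
  have hpre : polytope (S.image g.mulVec) = (Matrix.toLin' G) ⁻¹' (polytope S) := by
    ext x
    simp only [polytope, mem_ofPred_eq, mem_preimage, Finset.forall_mem_image]
    refine forall₂_congr fun v _ => ?_
    have : pair (g.mulVec v) x = pair v (Matrix.toLin' G x) := by
      simp only [pair, Matrix.toLin'_apply, Matrix.mulVec, dotProduct, G, Matrix.transpose_apply,
        Matrix.map_apply, Int.cast_sum, Int.cast_mul, Finset.mul_sum, Finset.sum_mul]
      rw [Finset.sum_comm]
      refine Finset.sum_congr rfl fun i _ => Finset.sum_congr rfl fun j _ => by ring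
    rw [this]
  rw [hpre, Measure.addHaar_preimage_linearMap]
  · rw [LinearMap.det_toLin', abs_inv, hG]
    simp
  · rw [LinearMap.det_toLin']
    intro h; rw [h] at hG; simp at hG


end

/-! ## The product of a line and a projective space -/

section

variable {n : ℕ}



/-- the standard basis of the lattice -/
def e (n : ℕ) : Fin n → (Fin n → ℤ) := fun i => Pi.single i 1

lemma rmat_e : rmat (e n) = 1 := by
  ext i j
  simp only [rmat, e, toR, Matrix.of_apply, Matrix.one_apply, Pi.single_apply]
  by_cases h : i = j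
  · subst h; simp
  · simp [h, Ne.symm h]

lemma pair_e (i : Fin n) (x : Fin n → ℝ) : pair (e n i) x = x i := by
  rw [← rmat_mulVec (e n) x i, rmat_e, Matrix.one_mulVec]

section line

/-- the first index -/
def z0 (hn : 2 ≤ n) : Fin n := ⟨0, by omega⟩

lemma f1_eq (hn : 2 ≤ n) : (fun i : Fin n => if (i : ℕ) = 0 then (-1 : ℤ) else 0) = -(∑ i ∈ {z0 hn}, e n i) := by
  funext i
  simp only [Finset.sum_singleton, Pi.neg_apply, e, Pi.single_apply, z0, Fin.ext_iff]
  split_ifs <;> simp_all

lemma f2_eq (hn : 2 ≤ n) : (fun i : Fin n => if (i : ℕ) = 0 then (0 : ℤ) else -1) = -(∑ i ∈ {z0 hn}ᶜ, e n i) := by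
  funext i
  simp only [Pi.neg_apply, e, Finset.sum_apply, Pi.single_apply]
  rw [Finset.sum_ite_eq ({z0 hn}ᶜ) i]
  simp only [Finset.mem_compl, Finset.mem_singleton, z0, Fin.ext_iff]
  split_ifs <;> simp_all

lemma mem_line (hn : 2 ≤ n) (w : Fin n → ℤ) : w ∈ lineTimesProjectiveSpace n ↔
    (∃ i, w = e n i) ∨ w = -(∑ i ∈ {z0 hn}, e n i) ∨ w = -(∑ i ∈ {z0 hn}ᶜ, e n i) := by
  rw [lineTimesProjectiveSpace, f1_eq hn, f2_eq hn, Finset.mem_union, Finset.mem_image,
    Finset.mem_insert, Finset.mem_singleton]
  refine or_congr ⟨?_, ?_⟩ Iff.rfl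
  · rintro ⟨i, _, rfl⟩; exact ⟨i, rfl⟩
  · rintro ⟨i, rfl⟩; exact ⟨i, Finset.mem_univ _, rfl⟩

lemma pair_neg_sum_e (B : Finset (Fin n)) (x : Fin n → ℝ) :
    pair (-(∑ i ∈ B, e n i)) x = - ∑ i ∈ B, x i := by
  have : pair (-(∑ i ∈ B, e n i)) x = - pair (∑ i ∈ B, e n i) x := by simp [pair]
  rw [this, pair_sum_left]
  simp_rw [pair_e]

lemma polytope_line (hn : 2 ≤ n) : polytope (lineTimesProjectiveSpace n) =
    aff (rmat (e n)) ⁻¹' (block {z0 hn} ((({z0 hn} : Finset (Fin n)).card : ℝ) + 1)
      ((({z0 hn} : Finset (Fin n))ᶜ.card : ℝ) + 1)) := by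
  ext x
  have haff : ∀ i, aff (rmat (e n)) x i = x i + 1 := by
    intro i; simp only [aff]; rw [rmat_mulVec, pair_e]
  simp only [polytope, mem_ofPred_eq, mem_preimage, block, haff, Finset.sum_add_distrib,
    Finset.sum_const, nsmul_eq_mul, mul_one]
  constructor
  · intro h
    refine ⟨fun i => ?_, ?_, ?_⟩
    · have := h (e n i) ((mem_line hn _).mpr (Or.inl ⟨i, rfl⟩))
      rw [pair_e] at this; linarith
    · have := h _ ((mem_line hn _).mpr (Or.inr (Or.inl rfl)))
      rw [pair_neg_sum_e] at this; linarith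
    · have := h _ ((mem_line hn _).mpr (Or.inr (Or.inr rfl)))
      rw [pair_neg_sum_e] at this; linarith
  · rintro ⟨h1, h2, h3⟩ w hw
    rcases (mem_line hn w).mp hw with ⟨i, rfl⟩ | rfl | rfl
    · rw [pair_e]; linarith [h1 i]
    · rw [pair_neg_sum_e]; linarith
    · rw [pair_neg_sum_e]; linarith

lemma isPrimitive_of_unit {v : Fin n → ℤ} (i : Fin n) (h : v i = 1 ∨ v i = -1) :
    IsPrimitive v := by
  unfold IsPrimitive
  have h1 : Finset.univ.gcd v ∣ v i := Finset.gcd_dvd (Finset.mem_univ i)
  have h2 : IsUnit (Finset.univ.gcd v) := by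
    apply isUnit_of_dvd_unit h1
    rcases h with h | h <;> rw [h] <;> simp
  have h3 := Finset.normalize_gcd (s := (Finset.univ : Finset (Fin n))) (f := v)
  rw [← h3]
  exact normalize_eq_one.mpr h2

lemma isFano_line (hn : 2 ≤ n) : IsFanoPolytope (lineTimesProjectiveSpace n) := by
  classical
  set L := lineTimesProjectiveSpace n with hL
  have hcardc : (({z0 hn} : Finset (Fin n))ᶜ).card = n - 1 := by
    rw [Finset.card_compl, Fintype.card_fin, Finset.card_singleton]
  have hn1 : (1 : ℝ) ≤ ((n - 1 : ℕ) : ℝ) := by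
    have : 1 ≤ n - 1 := by omega
    exact_mod_cast this
  refine ⟨?_, ?_, ?_⟩
  · intro w hw
    rcases (mem_line hn w).mp hw with ⟨i, rfl⟩ | rfl | rfl
    · exact isPrimitive_of_unit i (Or.inl (by simp [e]))
    · rw [← f1_eq hn]
      exact isPrimitive_of_unit (z0 hn) (Or.inr (by simp [z0]))
    · rw [← f2_eq hn]
      exact isPrimitive_of_unit ⟨1, by omega⟩ (Or.inr (by simp))
  · -- vertices
    have key : ∀ w ∈ L, ∀ x : Fin n → ℝ, pair w x = -1 → (∀ w' ∈ L, w' ≠ w → -1 < pair w' x) →
        toR w ∉ convexHull ℝ (toR '' ((L : Set (Fin n → ℤ)) \ {w})) := by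
      intro w _ x hx hx' hmem
      have := lin_gt_of_mem_convexHull (T := (L : Set (Fin n → ℤ)) \ {w}) (x := x) (c := -1)
        (fun v hv => hx' v hv.1 hv.2) hmem
      rw [lin_toR, hx] at this
      exact lt_irrefl _ this
    intro w hw
    rcases (mem_line hn w).mp hw with ⟨j, hj⟩ | hj | hj
    · refine key w hw (fun i => if i = j then -1 else -(1 / 2)) ?_ ?_
      · rw [hj, pair_e]; simp
      · intro w' hw' hne
        have hneg : ∀ i : Fin n, (if i = j then (-1 : ℝ) else -(1 / 2)) ≤ 0 := by
          intro i; split_ifs <;> norm_num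
        rcases (mem_line hn w').mp hw' with ⟨i, rfl⟩ | rfl | rfl
        · rw [pair_e]
          have : i ≠ j := by rintro rfl; exact hne hj.symm
          rw [if_neg this]; norm_num
        · rw [pair_neg_sum_e]
          have := Finset.sum_nonpos (s := ({z0 hn} : Finset (Fin n))) (fun i _ => hneg i)
          linarith
        · rw [pair_neg_sum_e]
          have := Finset.sum_nonpos (s := ({z0 hn} : Finset (Fin n))ᶜ) (fun i _ => hneg i)
          linarith
    · refine key w hw (fun i => if i = z0 hn then 1 else 0) ?_ ?_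
      · rw [hj, pair_neg_sum_e]; simp
      · intro w' hw' hne
        rcases (mem_line hn w').mp hw' with ⟨i, rfl⟩ | rfl | rfl
        · rw [pair_e]; split_ifs <;> norm_num
        · exact absurd hj.symm hne
        · rw [pair_neg_sum_e]
          have : ∑ i ∈ ({z0 hn} : Finset (Fin n))ᶜ, (if i = z0 hn then (1 : ℝ) else 0) = 0 := by
            apply Finset.sum_eq_zero
            intro i hi
            rw [if_neg (by simpa using hi)]
          rw [this]; norm_num
    · refine key w hw (fun i => if i = z0 hn then 0 else 1 / ((n - 1 : ℕ) : ℝ)) ?_ ?_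
      · rw [hj, pair_neg_sum_e]
        have : ∑ i ∈ ({z0 hn} : Finset (Fin n))ᶜ, (if i = z0 hn then (0 : ℝ) else 1 / ((n - 1 : ℕ) : ℝ)) =
            ∑ i ∈ ({z0 hn} : Finset (Fin n))ᶜ, 1 / ((n - 1 : ℕ) : ℝ) := by
          apply Finset.sum_congr rfl
          intro i hi
          rw [if_neg (by simpa using hi)]
        rw [this, Finset.sum_const, hcardc, nsmul_eq_mul]
        field_simp
      · intro w' hw' hne
        rcases (mem_line hn w').mp hw' with ⟨i, rfl⟩ | rfl | rfl
        · rw [pair_e]
          split_ifs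
          · norm_num
          · have : 0 < 1 / ((n - 1 : ℕ) : ℝ) := by positivity
            linarith
        · rw [pair_neg_sum_e]; simp
        · exact absurd hj.symm hne
  · -- origin
    rw [mem_interior_iff_mem_nhds, Metric.mem_nhds_iff]
    have hn0 : (0 : ℝ) < n := by positivity
    refine ⟨1 / (2 * n + 2), by positivity, ?_⟩
    intro x hx
    rw [mem_ball_zero_iff] at hx
    have hxi : ∀ i, |x i| ≤ 1 / (2 * n + 2) := fun i => (norm_le_pi_norm x i).trans hx.le
    have hsum : |∑ i, x i| ≤ n / (2 * n + 2) := by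
      calc |∑ i, x i| ≤ ∑ i, |x i| := Finset.abs_sum_le_sum_abs _ _
        _ ≤ ∑ _i : Fin n, 1 / (2 * (n : ℝ) + 2) := Finset.sum_le_sum fun i _ => hxi i
        _ = n / (2 * n + 2) := by
            rw [Finset.sum_const, Finset.card_univ, Fintype.card_fin, nsmul_eq_mul]; ring
    set m : ℝ := (1 - ∑ i, x i) / (n + 2) with hm
    have hmge : 1 / (2 * (n : ℝ) + 2) ≤ m := by
      rw [hm, le_div_iff₀ (by positivity)]
      have h1 := (abs_le.mp hsum).2
      have h2 : 1 / (2 * (n : ℝ) + 2) * (n + 2) = 1 - n / (2 * n + 2) := by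
        field_simp; ring
      rw [h2]; linarith
    have hm0 : 0 ≤ m := le_trans (by positivity) hmge
    have hxe : x = ∑ k : Fin n ⊕ Fin 2, (Sum.elim (fun i => x i + m) (fun _ => m) k : ℝ) •
        (Sum.elim (fun i => toR (e n i)) (fun k : Fin 2 => if k = 0 then
          toR (-(∑ i ∈ {z0 hn}, e n i)) else toR (-(∑ i ∈ {z0 hn}ᶜ, e n i))) k : Fin n → ℝ) := by
      rw [Fintype.sum_sum_type, Fin.sum_univ_two]
      simp only [Sum.elim_inl, Sum.elim_inr, if_true, one_ne_zero, if_false]
      rw [toR_neg, toR_neg, toR_sum, toR_sum, smul_neg, smul_neg]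
      simp only [add_smul, Finset.sum_add_distrib]
      rw [← Finset.smul_sum, ← Finset.sum_add_sum_compl {z0 hn} (fun i => toR (e n i)), smul_add]
      have h3 : ∑ i, x i • toR (e n i) = x := by
        funext j
        simp only [Finset.sum_apply, Pi.smul_apply, smul_eq_mul, toR, e, Pi.single_apply]
        simp
      rw [h3]
      abel
    rw [hxe]
    apply (convex_convexHull ℝ _).sum_mem
    · intro k _
      rcases k with i | k
      · simp only [Sum.elim_inl]
        have := (abs_le.mp (hxi i)).1
        linarith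
      · simpa using hm0
    · rw [Fintype.sum_sum_type]
      simp only [Sum.elim_inl, Sum.elim_inr, Finset.sum_add_distrib, Finset.sum_const,
        Finset.card_univ, Fintype.card_fin, nsmul_eq_mul]
      rw [hm]; push_cast; field_simp; ring
    · intro k _
      apply subset_convexHull
      rcases k with i | k
      · exact ⟨e n i, (mem_line hn _).mpr (Or.inl ⟨i, rfl⟩), rfl⟩
      · simp only [Sum.elim_inr]
        split_ifs
        · exact ⟨_, (mem_line hn _).mpr (Or.inr (Or.inl rfl)), rfl⟩
        · exact ⟨_, (mem_line hn _).mpr (Or.inr (Or.inr rfl)), rfl⟩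

lemma degree_line (hn : 2 ≤ n) : degree (lineTimesProjectiveSpace n) = 2 * (n : ℝ) ^ n := by
  unfold degree
  have hdet : (rmat (e n)).det = 1 := by rw [rmat_e, Matrix.det_one]
  rw [polytope_line hn, volume_block _ _ (by rw [hdet]; exact one_ne_zero), hdet]
  have hcardc : (({z0 hn} : Finset (Fin n))ᶜ).card = n - 1 := by
    rw [Finset.card_compl, Fintype.card_fin, Finset.card_singleton]
  rw [hcardc, Finset.card_singleton, abs_one, inv_one, one_mul, ENNReal.toReal_ofReal
    (mul_pos (phi_pos _) (phi_pos _)).le, factorial_mul_phi (by omega)]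

lemma integral_block_sum (A : Finset (Fin n)) {M : Matrix (Fin n) (Fin n) ℝ} (hM : M.det ≠ 0)
    (hc : IsCompact (aff M ⁻¹' (block A ((A.card : ℝ) + 1) ((Aᶜ.card : ℝ) + 1)))) :
    ∫ x in aff M ⁻¹' (block A ((A.card : ℝ) + 1) ((Aᶜ.card : ℝ) + 1)),
      ∑ i ∈ Aᶜ, M.mulVec x i = 0 := by
  set Q := aff M ⁻¹' (block A ((A.card : ℝ) + 1) ((Aᶜ.card : ℝ) + 1)) with hQ
  have hmeas : MeasurableSet Q := measurable_aff M (measurableSet_block _ _ _)
  have h1 : ∫ x in Q, fn M A x = |M.det|⁻¹ * (phi A.card * phi Aᶜ.card) := by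
    rw [integral_eq_lintegral_of_nonneg_ae, lintegral_fn_block M A hM, ENNReal.toReal_ofReal]
    · have := phi_pos A.card
      have := phi_pos Aᶜ.card
      positivity
    · filter_upwards [ae_restrict_mem hmeas] with x hx
      exact fn_nonneg hx
    · exact (continuous_fn M A).aestronglyMeasurable
  have h2 : (volume Q).toReal = |M.det|⁻¹ * (phi A.card * phi Aᶜ.card) := by
    rw [volume_block M A hM, ENNReal.toReal_ofReal]
    have := phi_pos A.card
    have := phi_pos Aᶜ.card
    positivity
  have h3 : ∀ x, fn M A x = 1 - ∑ i ∈ Aᶜ, M.mulVec x i := by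
    intro x
    simp only [fn, aff, Finset.sum_add_distrib, Finset.sum_const, nsmul_eq_mul, mul_one]
    ring
  simp_rw [h3] at h1
  have hcM : Continuous (fun x : Fin n → ℝ => M.mulVec x) :=
    (Matrix.mulVecLin M).continuous_of_finiteDimensional
  have hs : Continuous (fun x : Fin n → ℝ => ∑ i ∈ Aᶜ, M.mulVec x i) :=
    continuous_finsetSum _ (fun i _ => (continuous_apply i).comp hcM)
  rw [integral_sub (continuous_const.continuousOn.integrableOn_compact hc)
    (hs.continuousOn.integrableOn_compact hc)] at h1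
  simp only [integral_const, smul_eq_mul, mul_one, Measure.real,
    Measure.restrict_apply MeasurableSet.univ, univ_inter] at h1
  linarith

lemma block_compl (A : Finset (Fin n)) (s t : ℝ) : block A s t = block Aᶜ t s := by
  ext y
  simp only [block, mem_ofPred_eq, compl_compl]
  tauto

lemma integral_coord_line (hn : 2 ≤ n) (i : Fin n) :
    ∫ x in polytope (lineTimesProjectiveSpace n), x i = 0 := by
  classical
  have hc := isCompact_polytope (isFano_line hn)
  have hdet : (rmat (e n)).det ≠ 0 := by rw [rmat_e, Matrix.det_one]; exact one_ne_zero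
  have hint : ∀ j : Fin n, IntegrableOn (fun x : Fin n → ℝ => x j)
      (polytope (lineTimesProjectiveSpace n)) := fun j =>
    (continuous_apply j).continuousOn.integrableOn_compact hc
  have hmv : ∀ (x : Fin n → ℝ) (j : Fin n), (rmat (e n)).mulVec x j = x j := by
    intro x j; rw [rmat_mulVec, pair_e]
  by_cases hi : i = z0 hn
  · subst hi
    have h1 := integral_block_sum (n := n) (({z0 hn} : Finset (Fin n))ᶜ) hdet
    rw [compl_compl, ← block_compl, ← polytope_line hn] at h1
    have h2 := h1 hc
    simp_rw [hmv] at h2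
    simpa using h2
  · have h1 := integral_block_sum (n := n) ({z0 hn} : Finset (Fin n)) hdet
    rw [← polytope_line hn] at h1
    have h2 := h1 hc
    simp_rw [hmv] at h2
    rw [integral_finsetSum _ (fun j _ => hint j)] at h2
    -- all the integrals are equal
    have hsymm : ∀ j ∈ (({z0 hn} : Finset (Fin n))ᶜ),
        ∫ x in polytope (lineTimesProjectiveSpace n), x j =
          ∫ x in polytope (lineTimesProjectiveSpace n), x i := by
      intro j hj
      let σ : Equiv.Perm (Fin n) := Equiv.swap i j
      let E := MeasurableEquiv.piCongrLeft (fun _ : Fin n => ℝ) σ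
      have hE : MeasurePreserving E volume volume :=
        volume_measurePreserving_piCongrLeft (fun _ : Fin n => ℝ) σ
      have hval : ∀ (y : Fin n → ℝ) (k : Fin n), E y (σ k) = y k := by
        intro y k
        simp only [E, MeasurableEquiv.coe_piCongrLeft]
        exact Equiv.piCongrLeft_apply_apply (fun _ : Fin n => ℝ) σ y k
      have hjz : j ≠ z0 hn := by simpa using hj
      have hσz : σ (z0 hn) = z0 hn := Equiv.swap_apply_of_ne_of_ne (Ne.symm hi) (Ne.symm hjz)
      have hEz : ∀ y, E y (z0 hn) = y (z0 hn) := by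
        intro y
        have := hval y (z0 hn)
        rwa [hσz] at this
      have hsumE : ∀ y, ∑ k ∈ ({z0 hn} : Finset (Fin n))ᶜ, E y k =
          ∑ k ∈ ({z0 hn} : Finset (Fin n))ᶜ, y k := by
        intro y
        have h3 : ∑ k, E y k = ∑ k, y k := by
          rw [← Equiv.sum_comp σ]
          simp_rw [hval]
        rw [← Finset.sum_add_sum_compl {z0 hn}, ← Finset.sum_add_sum_compl {z0 hn} y,
          Finset.sum_singleton, Finset.sum_singleton, hEz] at h3
        linarith
      have hpre : E ⁻¹' (polytope (lineTimesProjectiveSpace n)) =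
          polytope (lineTimesProjectiveSpace n) := by
        ext y
        rw [mem_preimage]
        have hiff : ∀ x : Fin n → ℝ, x ∈ polytope (lineTimesProjectiveSpace n) ↔
            (∀ k, -1 ≤ x k) ∧ x (z0 hn) ≤ 1 ∧ ∑ k ∈ ({z0 hn} : Finset (Fin n))ᶜ, x k ≤ 1 := by
          intro x
          constructor
          · intro h
            refine ⟨fun k => ?_, ?_, ?_⟩
            · have := h (e n k) ((mem_line hn _).mpr (Or.inl ⟨k, rfl⟩))
              rwa [pair_e] at this
            · have := h _ ((mem_line hn _).mpr (Or.inr (Or.inl rfl)))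
              rw [pair_neg_sum_e, Finset.sum_singleton] at this; linarith
            · have := h _ ((mem_line hn _).mpr (Or.inr (Or.inr rfl)))
              rw [pair_neg_sum_e] at this; linarith
          · rintro ⟨h1, h2, h3⟩ w hw
            rcases (mem_line hn w).mp hw with ⟨i, rfl⟩ | rfl | rfl
            · rw [pair_e]; exact h1 i
            · rw [pair_neg_sum_e, Finset.sum_singleton]; linarith
            · rw [pair_neg_sum_e]; linarith
        rw [hiff, hiff, hEz, hsumE]
        refine and_congr_left fun _ => ⟨fun h k => ?_, fun h k => ?_⟩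
        · rw [← hval y k]; exact h _
        · obtain ⟨k', rfl⟩ := σ.surjective k
          rw [hval]; exact h _
      have h4 := hE.setIntegral_preimage_emb E.measurableEmbedding (fun x => x j)
        (polytope (lineTimesProjectiveSpace n))
      rw [hpre] at h4
      rw [← h4]
      have h5 : ∀ y, E y j = y i := by
        intro y
        have := hval y i
        rwa [show σ i = j from Equiv.swap_apply_left _ _] at this
      simp_rw [h5]
    rw [Finset.sum_congr rfl hsymm, Finset.sum_const, nsmul_eq_mul] at h2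
    rcases mul_eq_zero.mp h2 with h | h
    · exfalso
      have : (({z0 hn} : Finset (Fin n))ᶜ).card = 0 := by exact_mod_cast h
      rw [Finset.card_eq_zero] at this
      have hi' : i ∈ (({z0 hn} : Finset (Fin n))ᶜ) := by simpa using hi
      rw [this] at hi'
      simp at hi'
    · exact h

lemma isKSemistable_line (hn : 2 ≤ n) : IsKSemistable (lineTimesProjectiveSpace n) := by
  intro w _
  rw [beta_eq (isFano_line hn)]
  have hc := isCompact_polytope (isFano_line hn)
  have : ∫ x in polytope (lineTimesProjectiveSpace n), pair w x = 0 := by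
    unfold pair
    rw [integral_finsetSum]
    · apply Finset.sum_eq_zero
      intro i _
      rw [integral_const_mul, integral_coord_line hn, mul_zero]
    · intro i _
      exact (continuous_const.mul (continuous_apply i)).continuousOn.integrableOn_compact hc
  rw [this]; simp

lemma card_isomorphic {S S' : Finset (Fin n → ℤ)} (h : Isomorphic S S') : S'.card = S.card := by
  obtain ⟨g, hg, rfl⟩ := h
  apply Finset.card_image_of_injective
  have hu : IsUnit g := (Matrix.isUnit_iff_isUnit_det g).mpr hg
  exact Matrix.mulVec_injective_of_isUnit hu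

lemma card_projectiveSpace_le : (projectiveSpace n).card ≤ n + 1 := by
  classical
  unfold projectiveSpace
  refine (Finset.card_union_le _ _).trans ?_
  rw [Finset.card_singleton]
  refine Nat.add_le_add_right ?_ 1
  refine Finset.card_image_le.trans ?_
  simp

lemma card_line (hn : 2 ≤ n) : n + 2 ≤ (lineTimesProjectiveSpace n).card := by
  classical
  unfold lineTimesProjectiveSpace
  rw [Finset.card_union_of_disjoint, Finset.card_image_of_injective, Finset.card_univ,
    Fintype.card_fin, Finset.card_pair]
  · intro h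
    have := congrFun h (z0 hn)
    simp [z0] at this
  · intro i j hij
    by_contra hne
    have := congrFun hij i
    simp [Pi.single_eq_of_ne hne] at this
  · rw [Finset.disjoint_left]
    intro w hw hw'
    obtain ⟨i, _, rfl⟩ := Finset.mem_image.mp hw
    rw [Finset.mem_insert, Finset.mem_singleton] at hw'
    rcases hw' with h | h
    · have := congrFun h i
      simp only [Pi.single_eq_same] at this
      split_ifs at this <;> omega
    · have := congrFun h i
      simp only [Pi.single_eq_same] at this
      split_ifs at this <;> omega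

lemma not_isomorphic_line (hn : 2 ≤ n) : ¬ Isomorphic (projectiveSpace n) (lineTimesProjectiveSpace n) := by
  intro h
  have h1 := card_isomorphic h
  have h2 := card_projectiveSpace_le (n := n)
  have h3 := card_line hn
  omega

end line

theorem main (n : ℕ) (hn : 2 ≤ n) :
    (∀ S : Finset (Fin n → ℤ), IsFanoPolytope S → IsKSemistable S →
      ¬ Isomorphic (projectiveSpace n) S →
        degree S ≤ 2 * (n : ℝ) ^ n ∧
          (degree S = 2 * (n : ℝ) ^ n ↔ Isomorphic (lineTimesProjectiveSpace n) S)) ∧
    IsFanoPolytope (lineTimesProjectiveSpace n) ∧ IsKSemistable (lineTimesProjectiveSpace n) ∧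
    ¬ Isomorphic (projectiveSpace n) (lineTimesProjectiveSpace n) := by
  refine ⟨?_, isFano_line hn, isKSemistable_line hn, not_isomorphic_line hn⟩
  intro S hS hK hnot
  have hiso : Isomorphic (lineTimesProjectiveSpace n) S → degree S = 2 * (n : ℝ) ^ n := fun h => by
    rw [degree_isomorphic h, degree_line hn]
  rcases dichotomy hn hS hK with h | h | h
  · exact absurd h hnot
  · exact ⟨h.le, fun h' => absurd h' h.ne, hiso⟩
  · exact ⟨(hiso h).le, fun _ => h, hiso⟩


end

end Pool.Agent.Lib.Helper90.ToricFano
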